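import Pool.Agent.Helper97_EU.Basic

/-! # Module DECO: finitely many decorations -/

open Set Metric Topology unitInterval

noncomputable section

namespace Pool.Agent.EU.H97

open Pool.Agent.EU

universe u v

variable {X : Type u} [MetricSpace X] {ι : Type v} {𝓔 : EdgeSys X ι}

theorem EL_nil : 𝓔.EL ([] : List 𝓔.Arc) = ∅ := by
  ext i; simp [EdgeSys.EL]

theorem EL_cons (a : 𝓔.Arc) (l : List 𝓔.Arc) : 𝓔.EL (a :: l) = a.E ∪ 𝓔.EL l := by
  ext i; simp [EdgeSys.EL]

theorem EL_append (l l' : List 𝓔.Arc) : 𝓔.EL (l ++ l') = 𝓔.EL l ∪ 𝓔.EL l' := by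
  ext i
  simp only [EdgeSys.EL, List.mem_append, mem_ofPred_eq, mem_union]
  constructor
  · rintro ⟨a, h | h, hi⟩
    · exact Or.inl ⟨a, h, hi⟩
    · exact Or.inr ⟨a, h, hi⟩
  · rintro (⟨a, h, hi⟩ | ⟨a, h, hi⟩)
    · exact ⟨a, Or.inl h, hi⟩
    · exact ⟨a, Or.inr h, hi⟩

theorem thin_empty : 𝓔.Thin ∅ := by
  intro C _ hC _
  have : C ⊆ ∅ := by
    intro x hx
    have := hC hx
    simp [EdgeSys.R] at this
  exact (subset_empty_iff.1 this) ▸ subsingleton_empty

theorem thin_EL (hA : 𝓔.ThinArcStmt) (hU : 𝓔.ThinUnionStmt) (l : List 𝓔.Arc) :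
    𝓔.Thin (𝓔.EL l) := by
  induction l with
  | nil => rw [EL_nil]; exact thin_empty
  | cons a l ih => rw [EL_cons]; exact hU _ _ (hA a) ih

theorem Y_anti {S T : Set ι} (h : S ⊆ T) : 𝓔.Y T ⊆ 𝓔.Y S := by
  intro x hx hx'
  apply hx
  obtain ⟨i, hi, hxi⟩ := mem_iUnion₂.1 hx'
  exact mem_iUnion₂.2 ⟨i, h hi, hxi⟩

theorem disjoint_E_of_range {a : 𝓔.Arc} {S : Set ι} (h : range a.f ⊆ 𝓔.Y S) :
    Disjoint a.E S := by
  rw [Set.disjoint_left]
  intro i hi hS
  obtain ⟨x, hx⟩ := o_nonempty 𝓔 i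
  exact h (hi hx) (mem_iUnion₂.2 ⟨i, hS, hx⟩)

theorem c_subset_range {a : 𝓔.Arc} {i : ι} (hi : i ∈ a.E) : 𝓔.c i ⊆ range a.f := by
  refine (c_subset_closure_o 𝓔 i).trans ?_
  exact closure_minimal hi (isCompact_range a.f.continuous).isClosed

theorem deco (hA : 𝓔.ThinArcStmt) (hU : 𝓔.ThinUnionStmt) (hDH : 𝓔.DHStmt) : 𝓔.DecoStmt := by
  intro M hM S V θ ε us
  induction us generalizing S θ with
  | nil =>
    intro hS hθ hε hR hB _
    refine ⟨[], rfl, fun D hD => absurd hD List.not_mem_nil, ?_, ?_, ?_, ?_⟩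
    · simp [EdgeSys.EDisj]
    · simpa [EL_nil] using hS
    · simpa [EL_nil] using hR
    · simpa [EL_nil] using hB
  | cons u us ih =>
    intro hS hθ hε hR hB hus
    obtain ⟨huG, huR⟩ := hus u List.mem_cons_self
    obtain ⟨D, hDu, hD⟩ := hM S hS u huG huR (min ε (θ / 2)) (lt_min hε (by linarith))
    obtain ⟨h1, h2, h3, h4, h5, h6, h7, h8⟩ := hD
    set l := D.pre ++ D.post with hl
    set S' := S ∪ 𝓔.EL l with hS'
    have hSS' : S ⊆ S' := subset_union_left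
    have hS't : 𝓔.Thin S' := hU _ _ hS (thin_EL hA hU l)
    have hsmall : ∀ i ∈ S' \ S, 𝓔.c i ⊆ ball u (min ε (θ / 2)) := by
      rintro i ⟨hi | hi, hiS⟩
      · exact absurd hi hiS
      · obtain ⟨a, ha, hia⟩ := hi
        intro x hx
        have hx' : x ∈ 𝓔.RL l := ⟨a, ha, c_subset_range hia hx⟩
        have := (h4 hx').2
        rwa [hDu] at this
    have hR' : 𝓔.Rooted S' V (12 * θ) :=
      hDH S S' V θ u (min ε (θ / 2)) hS hS't hSS' hθ (lt_min hε (by linarith)) (min_le_right _ _)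
        hR hB hsmall
    have hB' : 𝓔.BigEnds S' V (12 * θ) := by
      intro i hi hns
      refine hB i (fun h => hi (hSS' h)) fun hs => hns ?_
      intro y hy z hz
      have := hs y hy z hz
      linarith
    obtain ⟨Ds, hD1, hD2, hD3, hD4, hD5, hD6⟩ := ih S' (12 * θ) hS't (by linarith) hε hR' hB'
      (fun u' hu' => hus u' (List.mem_cons_of_mem _ hu'))
    have hpow : 12 ^ (u :: us).length * θ = 12 ^ us.length * (12 * θ) := by
      rw [List.length_cons, pow_succ]; ring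
    have hSeq : S ∪ 𝓔.EL ((D :: Ds).flatMap (fun D => D.pre ++ D.post)) =
        S' ∪ 𝓔.EL (Ds.flatMap (fun D => D.pre ++ D.post)) := by
      rw [List.flatMap_cons, EL_append, ← union_assoc]
    refine ⟨D :: Ds, ?_, ?_, ?_, ?_, ?_, ?_⟩
    · rw [List.map_cons, hD1, hDu]
    · intro D' hD'
      rcases List.mem_cons.1 hD' with rfl | hD'
      · refine ⟨h1, h2, h3, ?_, h5, ?_, h7, h8⟩
        · exact h4.trans (inter_subset_inter_right _ (ball_subset_ball (min_le_left _ _)))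
        · exact ⟨h6.1, ball_subset_ball (min_le_left _ _) h6.2⟩
      · obtain ⟨g1, g2, g3, g4, g5, g6, g7, g8⟩ := hD2 D' hD'
        exact ⟨g1, g2, g3, g4.trans (inter_subset_inter_left _ (Y_anti hSS')), g5, g6, g7, g8⟩
    · rw [List.flatMap_cons]
      unfold EdgeSys.EDisj
      rw [List.pairwise_append]
      refine ⟨h3, hD3, ?_⟩
      intro a ha b hb
      obtain ⟨D', hD', hb'⟩ := List.mem_flatMap.1 hb
      have hbY : range b.f ⊆ 𝓔.Y S' := by
        intro x hx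
        exact ((hD2 D' hD').2.2.2.1 ⟨b, hb', hx⟩).1
      refine (disjoint_E_of_range hbY).symm.mono_left ?_
      intro i hi
      exact Or.inr ⟨a, ha, hi⟩
    · rw [hSeq]; exact hD4
    · rw [hSeq, hpow]; exact hD5
    · rw [hSeq, hpow]; exact hD6

end Pool.Agent.EU.H97
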