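import Pool.Agent.Helper97_EU.Basic
import Pool.Agent.Helper17_EU.StmtsF

/-! # Module ALONG: existence of base walks -/

open Set Metric Topology unitInterval

noncomputable section

namespace Pool.Agent.EU.H97

open Pool.Agent.EU

universe u v

variable {X : Type u} [MetricSpace X] {ι : Type v} {𝓔 : EdgeSys X ι}

theorem Along_le {a : 𝓔.Arc} {η : ℝ} {F : Set ι} {s t : I} {w : List (Step X ι)}
    (h : 𝓔.Along a η F s w t) : s ≤ t := by
  induction h with
  | nil s _ => exact le_rfl
  | edge i b s t w u hr _ ih => exact hr.1.le.trans ih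
  | jump s t w u hst _ _ _ _ _ ih => exact hst.le.trans ih

theorem Along_append {a : 𝓔.Arc} {η : ℝ} {F : Set ι} {s t u : I} {w w' : List (Step X ι)}
    (h : 𝓔.Along a η F s w t) (h' : 𝓔.Along a η F t w' u) : 𝓔.Along a η F s (w ++ w') u := by
  induction h with
  | nil s _ => exact h'
  | edge i b s t w u hr _ ih => exact EdgeSys.Along.edge i b s t _ _ hr (ih h')
  | jump s t w u hst h0 h1 hS hF _ ih => exact EdgeSys.Along.jump s t _ _ hst h0 h1 hS hF (ih h')

/-- enlarge `F` by an edge which is not run inside the interval -/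
theorem Along_insert {a : 𝓔.Arc} {η : ℝ} {F : Set ι} {s t : I} {w : List (Step X ι)}
    (h : 𝓔.Along a η F s w t) (i : ι)
    (hi : ∀ b s' t', a.Runs i b s' t' → ¬ (s ≤ s' ∧ t' ≤ t)) :
    𝓔.Along a η (insert i F) s w t := by
  induction h with
  | nil s hs => exact EdgeSys.Along.nil s hs
  | edge j b s t w u hr hal ih =>
    refine EdgeSys.Along.edge j b s t _ _ hr (ih fun b s' t' hr' hc => ?_)
    exact hi b s' t' hr' ⟨hr.1.le.trans hc.1, hc.2⟩
  | jump s t w u hst h0 h1 hS hF hal ih =>
    refine EdgeSys.Along.jump s t _ _ hst h0 h1 hS ?_ (ih fun b s' t' hr' hc => ?_)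
    · intro j hj b s' t' hr' hc
      rcases hj with rfl | hj
      · exact hi b s' t' hr' ⟨hc.1, hc.2.trans (Along_le hal)⟩
      · exact hF j hj b s' t' hr' hc
    · exact hi b s' t' hr' ⟨hst.le.trans hc.1, hc.2⟩

/-- the case `F = ∅` by small steps -/
theorem along_pure (hD : 𝓔.ArcDichStmt) (hR : 𝓔.ArcRunsStmt) (a : 𝓔.Arc) (η : ℝ)
    (δ : ℝ) (hδ : 0 < δ) (hδη : ∀ s t : I, s ≤ t → (t : ℝ) - s ≤ δ → Small η (a.f '' Icc s t)) :
    ∀ (n : ℕ) (s t : I), s ≤ t → (t : ℝ) - s ≤ n * δ → a.f s ∈ 𝓔.G → a.f t ∈ 𝓔.G →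
      ∃ w, 𝓔.Along a η ∅ s w t := by
  intro n
  induction n with
  | zero =>
    intro s t hst h hs _
    have : s = t := by
      refine le_antisymm hst ?_
      rw [← Subtype.coe_le_coe]
      simp only [Nat.cast_zero, zero_mul] at h
      linarith
    subst this
    exact ⟨[], EdgeSys.Along.nil s hs⟩
  | succ n ih =>
    intro s t hst h hs ht
    rcases eq_or_lt_of_le hst with rfl | hlt
    · exact ⟨[], EdgeSys.Along.nil s hs⟩
    -- last ground time in `[s, min (s+δ) t]`
    set K : Set I := {u | s ≤ u ∧ u ≤ t ∧ (u : ℝ) - s ≤ δ ∧ a.f u ∈ 𝓔.G} with hK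
    have hKc : IsCompact K := by
      refine IsClosed.isCompact ?_
      have h1 : IsClosed {u : I | s ≤ u} := isClosed_Ici
      have h2 : IsClosed {u : I | u ≤ t} := isClosed_Iic
      have h3 : IsClosed {u : I | (u : ℝ) - s ≤ δ} :=
        isClosed_le (continuous_subtype_val.sub continuous_const) continuous_const
      have h4 : IsClosed {u : I | a.f u ∈ 𝓔.G} := (isClosed_G 𝓔).preimage a.f.continuous
      exact h1.inter (h2.inter (h3.inter h4))
    have hKn : K.Nonempty := ⟨s, le_rfl, hst, by simpa using hδ.le, hs⟩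
    obtain ⟨u, ⟨hu1, hu2, hu3, hu4⟩, hmax⟩ := hKc.exists_isGreatest hKn
    have hSmall : Small η (a.f '' Icc s u) := hδη s u hu1 hu3
    -- continuation from `u`
    have hcont : ∃ w, 𝓔.Along a η ∅ u w t := by
      by_cases hut : u = t
      · subst hut
        exact ⟨[], EdgeSys.Along.nil u hu4⟩
      have hult : u < t := lt_of_le_of_ne hu2 hut
      by_cases hfull : δ ≤ (u : ℝ) - s
      · refine ih u t hu2 ?_ hu4 ht
        push_cast at h
        linarith
      · push Not at hfull
        -- a non ground time slightly after `u`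
        have hm : ∃ p : I, u < p ∧ p ≤ t ∧ (p : ℝ) - s ≤ δ ∧ ∀ q : I, u < q → q ≤ t →
            (q : ℝ) - s ≤ δ → a.f q ∉ 𝓔.G := by
          have hno : ∀ q : I, u < q → q ≤ t → (q : ℝ) - s ≤ δ → a.f q ∉ 𝓔.G := by
            intro q hq1 hq2 hq3 hq4
            exact absurd (hmax ⟨hu1.trans hq1.le, hq2, hq3, hq4⟩) (not_le.2 hq1)
          by_cases htδ : (t : ℝ) - s ≤ δ
          · exact ⟨t, hult, le_rfl, htδ, hno⟩
          · push Not at htδ
            have hs0 : (0 : ℝ) ≤ s := s.2.1
            have ht1 : (t : ℝ) ≤ 1 := t.2.2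
            refine ⟨⟨s + δ, by linarith, by linarith⟩, ?_, ?_, ?_, hno⟩
            · rw [← Subtype.coe_lt_coe]
              change (u : ℝ) < s + δ
              linarith
            · rw [← Subtype.coe_le_coe]
              change (s : ℝ) + δ ≤ t
              linarith
            · change (s : ℝ) + δ - s ≤ δ
              linarith
        obtain ⟨p, hp1, hp2, hp3, hno⟩ := hm
        obtain ⟨i, b, s', t', -, -, hr, hs'p, hpt'⟩ := exists_runs hD hR a (hno p hp1 hp2 hp3)
        have hs'u : s' = u := by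
          refine le_antisymm ?_ ?_
          · by_contra hcon
            push Not at hcon
            refine hno s' hcon (hs'p.le.trans hp2) ?_ (runs_start_mem_G hr)
            have := Subtype.coe_lt_coe.2 hs'p
            linarith
          · by_contra hcon
            push Not at hcon
            exact runs_ground hr hu4 ⟨hcon, hp1.trans hpt'⟩
        subst hs'u
        have htt' : t' ≤ t := by
          by_contra hcon
          push Not at hcon
          exact runs_ground hr ht ⟨hult, hcon⟩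
        have ht'δ : δ < (t' : ℝ) - s := by
          by_contra hcon
          push Not at hcon
          exact hno t' hr.1 htt' hcon (runs_end_mem_G hr)
        obtain ⟨w, hw⟩ := ih t' t htt' (by push_cast at h; linarith) (runs_end_mem_G hr) ht
        exact ⟨_, EdgeSys.Along.edge i b s' t' w t hr hw⟩
    obtain ⟨w, hw⟩ := hcont
    rcases eq_or_lt_of_le hu1 with rfl | hsu
    · exact ⟨w, hw⟩
    · exact ⟨_, EdgeSys.Along.jump s u w t hsu hs hu4 hSmall
        (fun i hi => absurd hi (notMem_empty i)) hw⟩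

theorem along (hD : 𝓔.ArcDichStmt) (hR : 𝓔.ArcRunsStmt) : 𝓔.AlongStmt := by
  intro a η F hη hF
  -- uniform continuity
  have huc : UniformContinuous a.f := CompactSpace.uniformContinuous_of_continuous a.f.continuous
  obtain ⟨δ, hδ, hδa⟩ := Metric.uniformContinuous_iff.1 huc η hη
  have hδη : ∀ s t : I, s ≤ t → (t : ℝ) - s ≤ δ / 2 → Small η (a.f '' Icc s t) := by
    rintro s t hst hst' y ⟨p, hp, rfl⟩ z ⟨q, hq, rfl⟩
    refine (hδa (a := p) (b := q) ?_).le
    rw [Subtype.dist_eq, Real.dist_eq, abs_lt]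
    have h1 := Subtype.coe_le_coe.2 hp.1
    have h2 := Subtype.coe_le_coe.2 hp.2
    have h3 := Subtype.coe_le_coe.2 hq.1
    have h4 := Subtype.coe_le_coe.2 hq.2
    constructor <;> linarith
  induction F, hF using Set.Finite.induction_on with
  | empty =>
    intro s t hst hs ht
    obtain ⟨n, hn⟩ := exists_nat_ge (((t : ℝ) - s) / (δ / 2))
    rw [div_le_iff₀ (by linarith)] at hn
    exact along_pure hD hR a η (δ / 2) (by linarith) hδη n s t hst hn hs ht
  | @insert i F _ _ ih =>
    intro s t hst hs ht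
    by_cases hrun : ∃ b s' t', a.Runs i b s' t' ∧ s ≤ s' ∧ t' ≤ t
    · obtain ⟨b, s', t', hr, hs', ht'⟩ := hrun
      obtain ⟨w1, hw1⟩ := ih s s' hs' hs (runs_start_mem_G hr)
      obtain ⟨w2, hw2⟩ := ih t' t ht' (runs_end_mem_G hr) ht
      have huniq : ∀ b1 s1 t1, a.Runs i b1 s1 t1 → s1 ≤ s' ∧ t' ≤ t1 := by
        intro b1 s1 t1 hr1
        have h1 : a.f s' ∈ a.f '' Icc s1 t1 := by
          rw [hr1.2.1, ← hr.2.1]
          exact mem_image_of_mem _ ⟨le_rfl, hr.1.le⟩
        have h2 : a.f t' ∈ a.f '' Icc s1 t1 := by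
          rw [hr1.2.1, ← hr.2.1]
          exact mem_image_of_mem _ ⟨hr.1.le, le_rfl⟩
        obtain ⟨x, hx, hx'⟩ := h1
        obtain ⟨y, hy, hy'⟩ := h2
        rw [a.inj hx'] at hx
        rw [a.inj hy'] at hy
        exact ⟨hx.1, hy.2⟩
      refine ⟨w1 ++ Step.edge i b :: w2, Along_append (Along_insert hw1 i ?_)
        (EdgeSys.Along.edge i b s' t' _ _ hr (Along_insert hw2 i ?_))⟩
      · intro b1 s1 t1 hr1 hc
        have := huniq b1 s1 t1 hr1
        exact absurd (this.2.trans hc.2) (not_le.2 hr.1)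
      · intro b1 s1 t1 hr1 hc
        have := huniq b1 s1 t1 hr1
        exact absurd (hc.1.trans this.1) (not_le.2 hr.1)
    · obtain ⟨w, hw⟩ := ih s t hst hs ht
      exact ⟨w, Along_insert hw i fun b s' t' hr hc => hrun ⟨b, s', t', hr, hc⟩⟩

end Pool.Agent.EU.H97
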