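import Pool.Agent.Helper17_EU.WBasics
import Pool.Agent.Helper17_EU.StmtsF

/-! # Module PIECES -/

open Set Metric Topology unitInterval

noncomputable section

namespace Pool.Agent.EU.H97

open Pool.Agent.EU

universe u v

variable {X : Type u} {ι : Type v}

theorem Asm_list_sum {α : Type*} (J : List α) (P Q : α → Multiset (List (Step X ι)))
    (h : ∀ j ∈ J, Asm (P j) (Q j)) : Asm ((J.map P).sum) ((J.map Q).sum) := by
  induction J with
  | nil => exact Asm.refl _
  | cons a J ih =>
    rw [List.map_cons, List.map_cons, List.sum_cons, List.sum_cons]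
    exact (h a List.mem_cons_self).add (ih fun j hj => h j (List.mem_cons_of_mem _ hj))

/-- splitting a filter according to a list without duplicates -/
theorem filter_list_sum {β : Type*} (Z : Multiset (((ℕ × ℕ) × I) × β)) (n : ℕ) (J : List ℕ)
    (hJ : J.Nodup) :
    (J.map (fun j => Z.filter (fun p => p.1.1 = (n, j)))).sum =
      Z.filter (fun p => p.1.1.1 = n ∧ p.1.1.2 ∈ J) := by
  induction J with
  | nil => simp
  | cons a J ih =>
    obtain ⟨ha, hJ'⟩ := List.nodup_cons.1 hJ
    rw [List.map_cons, List.sum_cons, ih hJ', Multiset.filter_add_filter]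
    have h0 : Z.filter (fun p => p.1.1 = (n, a) ∧ (p.1.1.1 = n ∧ p.1.1.2 ∈ J)) = 0 := by
      rw [Multiset.filter_eq_nil]
      rintro p - ⟨h1, -, h2⟩
      rw [h1] at h2
      exact ha h2
    rw [h0, add_zero]
    refine Multiset.filter_congr fun p _ => ?_
    constructor
    · rintro (h | ⟨h, h'⟩)
      · rw [h]; exact ⟨rfl, List.mem_cons_self⟩
      · exact ⟨h, List.mem_cons_of_mem _ h'⟩
    · rintro ⟨h, h'⟩
      rcases List.mem_cons.1 h' with h' | h'
      · left; exact Prod.ext h h'
      · exact Or.inr ⟨h, h'⟩

theorem filter_le_split {β : Type*} (Z : Multiset (((ℕ × ℕ) × I) × β)) (n : ℕ) :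
    Z.filter (fun p => p.1.1.1 ≤ n + 1) =
      Z.filter (fun p => p.1.1.1 = n + 1) + Z.filter (fun p => p.1.1.1 ≤ n) := by
  rw [Multiset.filter_add_filter]
  have h0 : Z.filter (fun p => p.1.1.1 = n + 1 ∧ p.1.1.1 ≤ n) = 0 := by
    rw [Multiset.filter_eq_nil]
    rintro p - ⟨h1, h2⟩
    omega
  rw [h0, add_zero]
  refine Multiset.filter_congr fun p _ => ?_
  omega

variable [MetricSpace X] {𝓔 : EdgeSys X ι}

/-- marker of a decoration -/
def mk (D : Deco X ι) : Multiset (List (Step X ι)) :=
  match D.mrk with
  | none => 0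
  | some k => {[Step.mark k D.pt]}

theorem asm_dcont (T : 𝓔.Tower) (m : ℕ) (bw : EdgeSys.Tower.BW X ι)
    (SW : ℕ → List (List (Step X ι))) (n : ℕ) (D : Deco X ι) :
    Asm (Multiset.ofList ((D.pre ++ D.post).map (T.cont m bw SW n)) + mk D)
      {T.dcont m bw SW n D} := by
  unfold EdgeSys.Tower.dcont mk
  have h1 := Asm.flatten (D.pre.map (T.cont m bw SW n))
  have h2 := Asm.flatten (D.post.map (T.cont m bw SW n))
  rw [← List.flatMap_def] at h1 h2
  have h3 : Multiset.ofList ((D.pre ++ D.post).map (T.cont m bw SW n)) =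
      Multiset.ofList (D.pre.map (T.cont m bw SW n)) +
        Multiset.ofList (D.post.map (T.cont m bw SW n)) := by
    rw [List.map_append, Multiset.coe_add]
  rw [h3]
  cases hm : D.mrk with
  | none =>
    simp only [add_zero, List.append_nil]
    exact (h1.add h2).trans (Asm.join2 _ _)
  | some k =>
    simp only
    refine ((h1.add h2).add_right _).trans ?_
    have h4 : ∀ a b c : Multiset (List (Step X ι)), a + b + c = a + c + b := by
      intro a b c; abel
    rw [h4]
    exact ((Asm.join2 _ _).add_right _).trans (Asm.join2 _ _)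

theorem asm_dconts (T : 𝓔.Tower) (m : ℕ) (bw : EdgeSys.Tower.BW X ι)
    (SW : ℕ → List (List (Step X ι))) (n : ℕ) (L : List (Deco X ι)) :
    Asm (Multiset.ofList ((L.flatMap (fun D => D.pre ++ D.post)).map (T.cont m bw SW n)) +
        Multiset.ofList ((L.filterMap (fun D => D.mrk.map (fun k => (k, D.pt)))).map
          (fun p => ([Step.mark p.1 p.2] : List (Step X ι)))))
      (Multiset.ofList (L.map (T.dcont m bw SW n))) := by
  induction L with
  | nil => exact Asm.refl _
  | cons D L ih =>
    rw [List.flatMap_cons, List.map_append, List.map_cons, ← Multiset.coe_add,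
      ← Multiset.cons_coe, ← Multiset.singleton_add]
    have h1 : Multiset.ofList (((D :: L).filterMap (fun D => D.mrk.map (fun k => (k, D.pt)))).map
          (fun p => ([Step.mark p.1 p.2] : List (Step X ι)))) = mk D +
        Multiset.ofList ((L.filterMap (fun D => D.mrk.map (fun k => (k, D.pt)))).map
          (fun p => ([Step.mark p.1 p.2] : List (Step X ι)))) := by
      unfold mk
      rw [List.filterMap_cons]
      cases hm : D.mrk with
      | none => simp
      | some k => simp
    rw [h1]
    have h2 : ∀ a b c d : Multiset (List (Step X ι)), a + b + (c + d) = (a + c) + (b + d) := by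
      intro a b c d; abel
    rw [h2]
    exact (asm_dcont T m bw SW n D).add ih

theorem asm_level (T : 𝓔.Tower) (m : ℕ) (bw : EdgeSys.Tower.BW X ι)
    (SW : ℕ → List (List (Step X ι))) (n : ℕ) :
    Asm (Multiset.ofList ((T.ids n).map (T.cont m bw SW n)) +
        Multiset.ofList ((T.marks n).map (fun p => ([Step.mark p.1 p.2] : List (Step X ι)))))
      (Multiset.ofList ((T.FA n).map (T.cont m bw SW n)) +
        Multiset.ofList ((T.DV n).map (T.dcont m bw SW n)) +
        Multiset.ofList ((T.DS n).map (fun D => T.dcont m bw SW n D.1))) := by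
  have h1 := asm_dconts T m bw SW n (T.DV n)
  have h2 := asm_dconts T m bw SW n ((T.DS n).map Prod.fst)
  unfold EdgeSys.Tower.ids EdgeSys.Tower.marks
  rw [List.map_append, List.map_append, List.map_append, ← Multiset.coe_add, ← Multiset.coe_add,
    ← Multiset.coe_add]
  have e1 : ((T.DS n).map Prod.fst).flatMap (fun D => D.pre ++ D.post) =
      (T.DS n).flatMap (fun D => D.1.pre ++ D.1.post) := by
    rw [List.flatMap_map]
  have e2 : ((T.DS n).map Prod.fst).filterMap (fun D => D.mrk.map (fun k => (k, D.pt))) =
      (T.DS n).filterMap (fun D => D.1.mrk.map (fun k => (k, D.1.pt))) := by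
    rw [List.filterMap_map]; rfl
  have e3 : ((T.DS n).map Prod.fst).map (T.dcont m bw SW n) =
      (T.DS n).map (fun D => T.dcont m bw SW n D.1) := by
    rw [List.map_map]; rfl
  rw [e1, e2, e3] at h2
  have h3 : ∀ a b c d e : Multiset (List (Step X ι)),
      a + b + c + (d + e) = a + ((b + d) + (c + e)) := by
    intro a b c d e; abel
  exact (Asm.of_eq (h3 _ _ _ _ _)).trans
    ((Asm.add_left _ (h1.add h2)).trans (Asm.of_eq (add_assoc _ _ _).symm))

/-- slot walks of level `l` -/
def Z (T : 𝓔.Tower) (SW : ℕ → List (List (Step X ι))) (l : ℕ) :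
    Multiset (((ℕ × ℕ) × I) × List (Step X ι)) := Multiset.ofList ((T.slots l).zip (SW l))

/-- one level of `slotsOn` -/
theorem slotsOn_level {β : Type*} (L : List (((ℕ × ℕ) × I) × β)) (n j k l : ℕ) :
    Multiset.ofList (((L.filterMap (fun p =>
      if n < l ∧ p.1.1 = (n, j) then some (p.1.2, l, p.2) else none)).filter
        (fun p => p.2.1 < k)).map (fun p => p.2.2)) =
      if n < l ∧ l < k then ((Multiset.ofList L).filter (fun p => p.1.1 = (n, j))).map Prod.snd
      else 0 := by
  by_cases h1 : n < l
  · by_cases h2 : l < k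
    · rw [if_pos ⟨h1, h2⟩, Multiset.filter_coe, Multiset.map_coe]
      congr 1
      induction L with
      | nil => rfl
      | cons p L ih =>
        rw [List.filterMap_cons, List.filter_cons]
        by_cases h3 : p.1.1 = (n, j)
        · simp [h1, h2, h3, ← ih]
        · simp [h3, ← ih]
    · rw [if_neg (fun h => h2 h.2)]
      rw [Multiset.coe_eq_zero, List.map_eq_nil_iff, List.filter_eq_nil_iff]
      intro a ha
      obtain ⟨p, -, hp⟩ := List.mem_filterMap.1 ha
      split_ifs at hp
      · rw [Option.some.injEq] at hp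
        rw [← hp]
        simpa using h2
  · rw [if_neg (fun h => h1 h.1)]
    rw [Multiset.coe_eq_zero, List.map_eq_nil_iff, List.filter_eq_nil_iff]
    intro a ha
    obtain ⟨p, -, hp⟩ := List.mem_filterMap.1 ha
    split_ifs at hp with h
    exact absurd h.1 h1

theorem slotsOn_filter (T : 𝓔.Tower) (m : ℕ) (SW : ℕ → List (List (Step X ι))) (n j k : ℕ)
    (hk : k ≤ m + 1) :
    Multiset.ofList (((T.slotsOn m SW n j).filter (fun p => p.2.1 < k)).map (fun p => p.2.2)) =
      ∑ l ∈ Finset.Ioo n k, ((Z T SW l).filter (fun p => p.1.1 = (n, j))).map Prod.snd := by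
  have key : ∀ N, Multiset.ofList ((((List.range N).flatMap (fun l =>
      ((T.slots l).zip (SW l)).filterMap (fun p =>
        if n < l ∧ p.1.1 = (n, j) then some (p.1.2, l, p.2) else none))).filter
          (fun p => p.2.1 < k)).map (fun p => p.2.2)) =
      ∑ l ∈ Finset.range N, if n < l ∧ l < k then
        ((Z T SW l).filter (fun p => p.1.1 = (n, j))).map Prod.snd else 0 := by
    intro N
    induction N with
    | zero => simp
    | succ N ih =>
      rw [List.range_succ, List.flatMap_append, List.filter_append, List.map_append,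
        ← Multiset.coe_add, ih, Finset.sum_range_succ]
      congr 1
      rw [List.flatMap_singleton]
      exact slotsOn_level _ n j k N
  have h2 := key (m + 1)
  have h3 : T.slotsOn m SW n j = (List.range (m + 1)).flatMap (fun l =>
      ((T.slots l).zip (SW l)).filterMap (fun p =>
        if n < l ∧ p.1.1 = (n, j) then some (p.1.2, l, p.2) else none)) := by
    unfold EdgeSys.Tower.slotsOn
    congr
  rw [h3, h2, ← Finset.sum_filter]
  refine Finset.sum_congr ?_ fun _ _ => rfl
  ext l
  simp only [Finset.mem_filter, Finset.mem_range, Finset.mem_Ioo]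
  omega

theorem sum_filter_comm {γ : Type*} [AddCommMonoid γ] (s : Finset ℕ) (J : List ℕ)
    (f : ℕ → ℕ → γ) : (J.map (fun j => ∑ l ∈ s, f l j)).sum = ∑ l ∈ s, (J.map (f l)).sum := by
  induction J with
  | nil => simp
  | cons a J ih =>
    rw [List.map_cons, List.sum_cons, ih, ← Finset.sum_add_distrib]
    refine Finset.sum_congr rfl fun l _ => ?_
    rw [List.map_cons, List.sum_cons]

theorem pieces : 𝓔.PiecesStmt := by
  intro T m bw C SW k Rp g hHost hNd hLen hRun hk hkm hCont hDV2 hg
  -- slot walks on the level `n`, coming from the levels `l` in `(n, k)`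
  set A : ℕ → Multiset (List (Step X ι)) := fun n =>
    ∑ l ∈ Finset.Ioo n k, ((Z T SW l).filter (fun p => p.1.1.1 = n)).map Prod.snd with hA
  set W : ℕ → Multiset (List (Step X ι)) := fun n =>
    ∑ l ∈ Finset.Ioo n k, ((Z T SW l).filter (fun p => p.1.1.1 ≤ n)).map Prod.snd with hW
  set R : ℕ → Multiset (List (Step X ι)) := fun n => ((T.ids n : Multiset ℕ).map (Rp n)).sum with hR
  set MM : ℕ → Multiset (List (Step X ι)) := fun n =>
    Multiset.ofList ((T.marks n).map (fun p => ([Step.mark p.1 p.2] : List (Step X ι)))) with hMM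
  have hZmem : ∀ l, 2 ≤ l → l ≤ m → ∀ p ∈ Z T SW l, T.IsHost l p.1.1 := by
    intro l h2 hm p hp
    have hp' : p ∈ (T.slots l).zip (SW l) := Multiset.mem_coe.1 hp
    exact hHost l h2 hm p.1 (List.of_mem_zip hp').1
  -- contents of the level `n`
  have hcontent : ∀ n, 2 ≤ n → n < k →
      Asm (R n + A n) (Multiset.ofList ((T.ids n).map (T.cont m bw SW n))) := by
    intro n h2 hnk
    have h1 := Asm_list_sum (T.ids n) (fun j => Rp n j + Multiset.ofList
        (((T.slotsOn m SW n j).filter (fun p => p.2.1 < k)).map (fun p => p.2.2)))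
        (fun j => {T.cont m bw SW n j}) (fun j hj => hCont n h2 hnk j hj)
    have h3 : ((T.ids n).map (fun j => ({T.cont m bw SW n j} : Multiset (List (Step X ι))))).sum =
        Multiset.ofList ((T.ids n).map (T.cont m bw SW n)) := by
      induction T.ids n with
      | nil => rfl
      | cons a L ih =>
        rw [List.map_cons, List.sum_cons, ih, List.map_cons, Multiset.singleton_add,
          Multiset.cons_coe]
    rw [h3, List.sum_map_add] at h1
    have h4 : ((T.ids n).map (Rp n)).sum = R n := by
      rw [hR]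
      simp only [Multiset.map_coe, Multiset.sum_coe]
    have h5 : ((T.ids n).map (fun j => Multiset.ofList
        (((T.slotsOn m SW n j).filter (fun p => p.2.1 < k)).map (fun p => p.2.2)))).sum = A n := by
      simp only [slotsOn_filter T m SW n _ k hkm]
      rw [sum_filter_comm]
      rw [hA]
      refine Finset.sum_congr rfl fun l hl => ?_
      rw [Finset.mem_Ioo] at hl
      have h6 := filter_list_sum (Z T SW l) n (T.ids n) (hNd n h2 (by omega))
      have h7 : ((T.ids n).map (fun j => ((Z T SW l).filter (fun p => p.1.1 = (n, j))).map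
          Prod.snd)).sum = (((T.ids n).map (fun j => (Z T SW l).filter
            (fun p => p.1.1 = (n, j)))).sum).map Prod.snd := by
        induction T.ids n with
        | nil => rfl
        | cons a L ih => rw [List.map_cons, List.sum_cons, ih, List.map_cons, List.sum_cons,
            Multiset.map_add]
      rw [h7, h6]
      congr 1
      refine Multiset.filter_congr fun p hp => ?_
      constructor
      · exact fun h => h.1
      · intro h
        refine ⟨h, ?_⟩
        have := (hZmem l (by omega) (by omega) p hp).2.2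
        rwa [h] at this
    rw [h4, h5] at h1
    exact h1
  -- splitting of `W`
  have hWsplit : ∀ n, 2 ≤ n → n < k →
      W n + Multiset.ofList (SW n) = A n + W (n - 1) := by
    intro n h2 hnk
    obtain ⟨n', rfl⟩ : ∃ n', n = n' + 1 := ⟨n - 1, by omega⟩
    have h1 : W (n' + 1) = A (n' + 1) + ∑ l ∈ Finset.Ioo (n' + 1) k,
        ((Z T SW l).filter (fun p => p.1.1.1 ≤ n')).map Prod.snd := by
      rw [hW, hA]
      simp only
      rw [← Finset.sum_add_distrib]
      refine Finset.sum_congr rfl fun l _ => ?_
      rw [filter_le_split, Multiset.map_add]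
    have h3 : W n' = Multiset.ofList (SW (n' + 1)) + ∑ l ∈ Finset.Ioo (n' + 1) k,
        ((Z T SW l).filter (fun p => p.1.1.1 ≤ n')).map Prod.snd := by
      rw [hW]
      simp only
      have h4 : Finset.Ioo n' k = insert (n' + 1) (Finset.Ioo (n' + 1) k) := by
        ext x
        simp only [Finset.mem_Ioo, Finset.mem_insert]
        omega
      rw [h4, Finset.sum_insert (by simp)]
      congr 1
      have h5 : (Z T SW (n' + 1)).filter (fun p => p.1.1.1 ≤ n') = Z T SW (n' + 1) := by
        rw [Multiset.filter_eq_self]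
        intro p hp
        have := (hZmem (n' + 1) h2 (by omega) p hp).2.1
        omega
      rw [h5]
      unfold Z
      rw [Multiset.map_coe, List.map_snd_zip]
      exact (hLen (n' + 1) h2 (by omega)).le
    rw [Nat.add_sub_cancel, h1, h3]
    abel
  -- main step
  have hstep : ∀ n, 2 ≤ n → n < k →
      Asm (EdgeSys.und (C n) + Multiset.ofList ((T.DV (n + 1)).map (T.dcont m bw SW (n + 1))) +
          W n + (R n + MM n))
        (EdgeSys.und (C (n - 1)) + Multiset.ofList ((T.DV n).map (T.dcont m bw SW n)) +
          W (n - 1)) := by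
    intro n h2 hnk
    obtain ⟨n', rfl⟩ : ∃ n', n = n' + 1 := ⟨n - 1, by omega⟩
    have h1 : W (n' + 1) = A (n' + 1) + ∑ l ∈ Finset.Ioo (n' + 1) k,
        ((Z T SW l).filter (fun p => p.1.1.1 ≤ n')).map Prod.snd := by
      rw [hW, hA]
      simp only
      rw [← Finset.sum_add_distrib]
      refine Finset.sum_congr rfl fun l _ => ?_
      rw [filter_le_split, Multiset.map_add]
    set B := ∑ l ∈ Finset.Ioo (n' + 1) k,
        ((Z T SW l).filter (fun p => p.1.1.1 ≤ n')).map Prod.snd with hB
    have h3 : W n' = Multiset.ofList (SW (n' + 1)) + B := by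
      have := hWsplit (n' + 1) h2 hnk
      rw [Nat.add_sub_cancel, h1] at this
      have h4 : A (n' + 1) + (B + Multiset.ofList (SW (n' + 1))) = A (n' + 1) + W n' := by
        rw [← this]; abel
      have h5 := add_left_cancel h4
      rw [← h5]; abel
    rw [Nat.add_sub_cancel, h1, h3]
    have c1 := hcontent (n' + 1) h2 hnk
    have c2 := asm_level T m bw SW (n' + 1)
    have c3 := hRun (n' + 1) h2 (by omega)
    rw [Nat.add_sub_cancel] at c3
    -- notations
    set u1 := EdgeSys.und (C (n' + 1))
    set d2 := Multiset.ofList ((T.DV (n' + 1 + 1)).map (T.dcont m bw SW (n' + 1 + 1)))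
    set d1 := Multiset.ofList ((T.DV (n' + 1)).map (T.dcont m bw SW (n' + 1)))
    set fa := Multiset.ofList ((T.FA (n' + 1)).map (T.cont m bw SW (n' + 1)))
    set ds := Multiset.ofList ((T.DS (n' + 1)).map (fun D => T.dcont m bw SW (n' + 1) D.1))
    set u0 := EdgeSys.und (C n')
    set sw := Multiset.ofList (SW (n' + 1))
    set ic := Multiset.ofList ((T.ids (n' + 1)).map (T.cont m bw SW (n' + 1)))
    have e1 : u1 + d2 + (A (n' + 1) + B) + (R (n' + 1) + MM (n' + 1)) =
        (R (n' + 1) + A (n' + 1)) + (MM (n' + 1) + (u1 + d2 + B)) := by abel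
    have e2 : ic + (MM (n' + 1) + (u1 + d2 + B)) = (ic + MM (n' + 1)) + (u1 + d2 + B) := by abel
    have e3 : fa + d1 + ds + (u1 + d2 + B) = (u1 + fa + d2 + ds) + (d1 + B) := by abel
    have e4 : u0 + sw + (d1 + B) = u0 + d1 + (sw + B) := by abel
    refine (Asm.of_eq e1).trans ?_
    refine (c1.add_right _).trans ?_
    refine (Asm.of_eq e2).trans ?_
    refine (c2.add_right _).trans ?_
    refine (Asm.of_eq e3).trans ?_
    refine (c3.add_right _).trans ?_
    exact Asm.of_eq e4
  -- iteration
  have hiter : ∀ d n, n + d = k - 1 → 1 ≤ n →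
      Asm (EdgeSys.und (C (k - 1)) + Multiset.ofList ((T.DV k).map (T.dcont m bw SW k)) +
        (∑ n ∈ Finset.Ico 2 k, R n) + (∑ n ∈ Finset.Ico 2 k, MM n))
        (EdgeSys.und (C n) + Multiset.ofList ((T.DV (n + 1)).map (T.dcont m bw SW (n + 1))) +
          W n + (∑ l ∈ Finset.Ico 2 (n + 1), (R l + MM l))) := by
    intro d
    induction d with
    | zero =>
      intro n hn h1
      have hn' : n = k - 1 := by omega
      have hk' : k - 1 + 1 = k := by omega
      subst hn'
      rw [hk']
      have hW0 : W (k - 1) = 0 := by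
        rw [hW]
        simp only
        have : Finset.Ioo (k - 1) k = ∅ := by
          ext x
          simp only [Finset.mem_Ioo, Finset.notMem_empty, iff_false]
          omega
        rw [this, Finset.sum_empty]
      rw [hW0, Finset.sum_add_distrib]
      exact Asm.of_eq (by abel)
    | succ d ih =>
      intro n hn h1
      have h2 := ih (n + 1) (by omega) (by omega)
      have h3 := hstep (n + 1) (by omega) (by omega)
      rw [Nat.add_sub_cancel] at h3
      refine h2.trans ?_
      have h4 : ∑ l ∈ Finset.Ico 2 (n + 1 + 1), (R l + MM l) =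
          ∑ l ∈ Finset.Ico 2 (n + 1), (R l + MM l) + (R (n + 1) + MM (n + 1)) := by
        rw [Finset.sum_Ico_succ_top (by omega)]
      rw [h4]
      set SS := ∑ l ∈ Finset.Ico 2 (n + 1), (R l + MM l)
      refine (Asm.of_eq ?_).trans (h3.add_right SS)
      abel
  have hfin := hiter (k - 2) 1 (by omega) le_rfl
  refine hfin.trans ?_
  have hW1 : W 1 = 0 := by
    rw [hW]
    simp only
    refine Finset.sum_eq_zero fun l hl => ?_
    rw [Finset.mem_Ioo] at hl
    have : (Z T SW l).filter (fun p => p.1.1.1 ≤ 1) = 0 := by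
      rw [Multiset.filter_eq_nil]
      intro p hp h
      have := (hZmem l (by omega) (by omega) p hp).1
      omega
    rw [this, Multiset.map_zero]
  have hI : Finset.Ico 2 (1 + 1) = ∅ := by simp
  rw [hW1, hI, Finset.sum_empty, hDV2]
  simpa using hg

end Pool.Agent.EU.H97
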