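import Pool.Agent.Helper97_EU.Basic
import Pool.Agent.Helper17_EU.StmtsF

/-! # Module RICH: rich points of arcs, landmarks, points which are not rich -/

open Set Metric Topology unitInterval

noncomputable section

namespace Pool.Agent.EU.H97

open Pool.Agent.EU

universe u v

variable {X : Type u} [MetricSpace X] {ι : Type v} {𝓔 : EdgeSys X ι}

theorem richArc : 𝓔.RichArcStmt := by
  intro a τ hτ ρ hρ
  have hopen : IsOpen (interior (a.f ⁻¹' 𝓔.G) ∩ a.f ⁻¹' ball (a.f τ) ρ) :=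
    isOpen_interior.inter (isOpen_ball.preimage a.f.continuous)
  have hmem : τ ∈ interior (a.f ⁻¹' 𝓔.G) ∩ a.f ⁻¹' ball (a.f τ) ρ :=
    ⟨hτ, mem_ball_self hρ⟩
  obtain ⟨ε, hε, hJs⟩ := Metric.isOpen_iff.1 hopen τ hmem
  have hJc : IsPreconnected (ball τ ε) := by
    rw [← Topology.IsInducing.subtypeVal.isPreconnected_image]
    have : Subtype.val '' ball τ ε = Ioo ((τ : ℝ) - ε) (τ + ε) ∩ Icc 0 1 := by
      ext x
      constructor
      · rintro ⟨t, ht, rfl⟩
        rw [mem_ball, Subtype.dist_eq, Real.dist_eq, abs_lt] at ht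
        exact ⟨⟨by linarith [ht.1], by linarith [ht.2]⟩, t.2⟩
      · rintro ⟨h1, h2⟩
        refine ⟨⟨x, h2⟩, ?_, rfl⟩
        rw [mem_ball, Subtype.dist_eq, Real.dist_eq, abs_lt]
        exact ⟨by linarith [h1.1], by linarith [h1.2]⟩
    rw [this]
    exact (ordConnected_Ioo.inter ordConnected_Icc).isPreconnected
  refine ⟨a.f '' ball τ ε, ?_, hJc.image _ a.f.continuous.continuousOn,
    mem_image_of_mem _ (mem_ball_self hε), ?_⟩
  · rintro x ⟨t, ht, rfl⟩
    have := hJs ht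
    exact ⟨(interior_subset (s := a.f ⁻¹' 𝓔.G) this.1 : _), this.2⟩
  · have h1 : (ball τ ε).Infinite := infinite_of_mem_nhds τ (ball_mem_nhds τ hε)
    exact h1.nontrivial.image a.inj

theorem fine (hD : 𝓔.ArcDichStmt) (hR : 𝓔.ArcRunsStmt) : 𝓔.FineStmt := by
  intro a ε hε
  have huc : UniformContinuous a.f := CompactSpace.uniformContinuous_of_continuous a.f.continuous
  obtain ⟨δ, hδ, hδa⟩ := Metric.uniformContinuous_iff.1 huc ε hε
  -- the dense set
  set D0 : Set I := (a.f ⁻¹' 𝓔.G)ᶜ ∪ interior (a.f ⁻¹' 𝓔.G) with hD0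
  have hcl : IsClosed (a.f ⁻¹' 𝓔.G) := (isClosed_G 𝓔).preimage a.f.continuous
  have hdense : Dense D0 := by
    have h := hcl.frontier_eq
    have h1 : D0 = (frontier (a.f ⁻¹' 𝓔.G))ᶜ := by
      rw [h]
      ext x
      simp only [hD0, mem_union, mem_compl_iff, Set.mem_sdiff]
      tauto
    rw [h1]
    exact interior_eq_empty_iff_dense_compl.1 (interior_frontier hcl)
  have hpt : ∀ c : I, ∃ p ∈ D0, dist c p < δ / 4 := by
    intro c
    obtain ⟨p, hp, hpD⟩ := Metric.dense_iff.1 hdense c (δ / 4) (by linarith)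
    exact ⟨p, hpD, by rw [dist_comm]; exact hp⟩
  choose p hp1 hp2 using hpt
  obtain ⟨N, hNfin, hN⟩ : ∃ N : Set I, N.Finite ∧ ∀ m : I, ∃ c ∈ N, dist m c < δ / 4 := by
    obtain ⟨N, -, hNf, hN⟩ := finite_cover_balls_of_compact (isCompact_univ (X := I))
      (show (0 : ℝ) < δ / 4 by linarith)
    refine ⟨N, hNf, fun m => ?_⟩
    obtain ⟨c, hc, hmc⟩ := mem_iUnion₂.1 (hN (mem_univ m))
    exact ⟨c, hc, hmc⟩
  refine ⟨{i | i ∈ a.E ∧ ∃ c ∈ N, a.f (p c) ∈ 𝓔.o i},
    {t | t ∈ interior (a.f ⁻¹' 𝓔.G) ∧ ∃ c ∈ N, t = p c}, ?_, ?_, ?_, ?_, ?_⟩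
  · have : {i | i ∈ a.E ∧ ∃ c ∈ N, a.f (p c) ∈ 𝓔.o i} ⊆
        ⋃ c ∈ N, {i | a.f (p c) ∈ 𝓔.o i} := by
      rintro i ⟨-, c, hc, hi⟩
      exact mem_iUnion₂.2 ⟨c, hc, hi⟩
    refine (hNfin.biUnion fun c _ => ?_).subset this
    refine Set.Subsingleton.finite ?_
    intro i hi j hj
    exact o_eq_of_mem 𝓔 hi hj
  · exact fun i hi => hi.1
  · refine (hNfin.image p).subset ?_
    rintro t ⟨-, c, hc, rfl⟩
    exact mem_image_of_mem _ hc
  · exact fun t ht => ht.1
  · intro s t hst hs ht hF hT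
    by_contra hns
    have hlong : δ ≤ (t : ℝ) - s := by
      by_contra hcon
      push Not at hcon
      apply hns
      rintro y ⟨q, hq, rfl⟩ z ⟨q', hq', rfl⟩
      refine (hδa (a := q) (b := q') ?_).le
      rw [Subtype.dist_eq, Real.dist_eq, abs_lt]
      have h1 := Subtype.coe_le_coe.2 hq.1
      have h2 := Subtype.coe_le_coe.2 hq.2
      have h3 := Subtype.coe_le_coe.2 hq'.1
      have h4 := Subtype.coe_le_coe.2 hq'.2
      constructor <;> linarith
    have hs0 : (0 : ℝ) ≤ s := s.2.1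
    have ht1 : (t : ℝ) ≤ 1 := t.2.2
    set m : I := ⟨((s : ℝ) + t) / 2, by constructor <;> linarith⟩ with hm
    obtain ⟨c, hc, hmc⟩ := hN m
    have h1 := hp2 c
    rw [Subtype.dist_eq, Real.dist_eq, abs_lt] at hmc h1
    have hmv : (m : ℝ) = ((s : ℝ) + t) / 2 := rfl
    have hsp : s < p c := by
      rw [← Subtype.coe_lt_coe]
      linarith [hmc.1, hmc.2, h1.1, h1.2]
    have hpt : p c < t := by
      rw [← Subtype.coe_lt_coe]
      linarith [hmc.1, hmc.2, h1.1, h1.2]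
    rcases hp1 c with hg | hint
    · obtain ⟨i, b, s', t', hiE, hio, hr, hs', ht'⟩ := exists_runs hD hR a hg
      refine hF i ⟨hiE, c, hc, hio⟩ b s' t' hr ⟨?_, ?_⟩
      · by_contra hcon
        push Not at hcon
        exact runs_ground hr hs ⟨hcon, hsp.trans ht'⟩
      · by_contra hcon
        push Not at hcon
        exact runs_ground hr ht ⟨hs'.trans hpt, hcon⟩
    · exact hT (p c) ⟨hint, c, hc, rfl⟩ ⟨hsp, hpt⟩

theorem nonRich [CompactSpace X] (hS : SepStmt X) : 𝓔.NonRichStmt := by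
  intro u hu hR V hV huV
  unfold EdgeSys.Rich at hR
  push Not at hR
  obtain ⟨ρ, hρ, hL⟩ := hR
  obtain ⟨ρ', hρ', hρρ, hVρ⟩ : ∃ ρ' > 0, ρ' < ρ ∧ ∀ v ∈ V, ρ' < dist v u := by
    have h1 : ∀ᶠ r in 𝓝[>] (0 : ℝ), ∀ v ∈ V, r < dist v u := by
      rw [Filter.eventually_all_finite hV]
      intro v hv
      have : 0 < dist v u := dist_pos.2 fun h => huV (h ▸ hv)
      exact nhdsWithin_le_nhds (gt_mem_nhds this)
    have h2 : ∀ᶠ r in 𝓝[>] (0 : ℝ), r < ρ := nhdsWithin_le_nhds (gt_mem_nhds hρ)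
    obtain ⟨r, ⟨h3, h4⟩, h5⟩ := ((h1.and h2).and self_mem_nhdsWithin).exists
    exact ⟨r, h5, h4, h3⟩
  set H := 𝓔.G ∩ closedBall u ρ' with hH
  have hHc : IsCompact H := ((isClosed_G 𝓔).inter isClosed_closedBall).isCompact
  have huH : u ∈ H := ⟨hu, mem_closedBall_self hρ'.le⟩
  obtain ⟨K, hKH, hK1, hK2, huK, hKQ⟩ := hS H {u} (H ∩ sphere u ρ') hHc
    (singleton_subset_iff.2 huH) inter_subset_left isClosed_singleton
    (hHc.isClosed.inter isClosed_sphere) (by
      rintro x rfl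
      rw [Set.disjoint_left]
      intro y hy hyQ
      have hcc : connectedComponentIn H x ⊆ 𝓔.G ∩ ball x ρ := by
        intro z hz
        have := connectedComponentIn_subset H x hz
        exact ⟨this.1, (mem_closedBall.1 this.2).trans_lt hρρ⟩
      have := hL _ hcc isPreconnected_connectedComponentIn (mem_connectedComponentIn huH)
      have hxy := this (mem_connectedComponentIn huH) hy
      subst hxy
      have h9 := hyQ.2
      rw [mem_sphere, dist_self] at h9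
      linarith)
  have hKball : ∀ x ∈ K, dist x u < ρ' := by
    intro x hx
    refine lt_of_le_of_ne (hKH hx).2 fun h => ?_
    exact Set.disjoint_left.1 hKQ hx ⟨hKH hx, h⟩
  refine ⟨K, ⟨fun x hx => (hKH hx).1, hK1, ?_⟩, huK rfl, ?_⟩
  · have : 𝓔.G \ K = (𝓔.G \ ball u ρ') ∪ (H \ K) := by
      ext x
      constructor
      · rintro ⟨h1, h2⟩
        by_cases hx : dist x u < ρ'
        · exact Or.inr ⟨⟨h1, hx.le⟩, h2⟩
        · exact Or.inl ⟨h1, hx⟩
      · rintro (⟨h1, h2⟩ | ⟨h1, h2⟩)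
        · exact ⟨h1, fun h => h2 (hKball x h)⟩
        · exact ⟨h1.1, h2⟩
    rw [this]
    exact ((isClosed_G 𝓔).sdiff isOpen_ball).union hK2
  · rw [Set.disjoint_left]
    intro x hx hxV
    exact absurd (hKball x hx) (not_lt.2 (hVρ x hxV).le)

end Pool.Agent.EU.H97
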