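import Pool.Agent.Helper97_EU.SeqB

/-! # Module SEQ: the sequence of closed walks -/

open Set Metric Topology unitInterval

noncomputable section

namespace Pool.Agent.EU.H97

open Pool.Agent.EU

universe u v

variable {X : Type u} [MetricSpace X] {ι : Type v} {𝓔 : EdgeSys X ι}

/-- markers determine their level and position -/
theorem mark_unique {T : 𝓔.Tower} {M : Set X} {p : X} (hT : 𝓔.TopOK T M p) {n n' k : ℕ} {x x' : X}
    (h2 : 2 ≤ n) (h2' : 2 ≤ n') (h : (k, x) ∈ T.marks n) (h' : (k, x') ∈ T.marks n') :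
    x = x' := by
  have hm : k ∈ (T.marks n).map Prod.fst := List.mem_map.2 ⟨_, h, rfl⟩
  have hm' : k ∈ (T.marks n').map Prod.fst := List.mem_map.2 ⟨_, h', rfl⟩
  rcases Nat.lt_trichotomy n n' with hlt | rfl | hlt
  · exact absurd hm ((hT.levelB n' h2').marksLow n hlt k hm')
  · have := List.inj_on_of_nodup_map (hT.levelB n h2).marksNodup h h' rfl
    exact (Prod.ext_iff.1 this).2
  · exact absurd hm' ((hT.levelB n h2).marksLow n' hlt k hm)

theorem mark_mem {T : 𝓔.Tower} {M : Set X} {p : X} (hT : 𝓔.TopOK T M p) {n k : ℕ} {x : X}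
    (h2 : 2 ≤ n) (h : (k, x) ∈ T.marks n) : x ∈ M := by
  have hB := hT.levelB n h2
  unfold EdgeSys.Tower.marks at h
  rcases List.mem_append.1 h with hq | hq
  · obtain ⟨D, hD, hDq⟩ := List.mem_filterMap.1 hq
    obtain ⟨k', hk', he⟩ := Option.map_eq_some_iff.1 hDq
    have h3 := ((hB.DVok D hD).1.2.2.2.2.2.1 k' hk').2
    have h4 : D.pt = x := (Prod.ext_iff.1 he).2
    rwa [h4] at h3
  · obtain ⟨D, hD, hDq⟩ := List.mem_filterMap.1 hq
    obtain ⟨k', hk', he⟩ := Option.map_eq_some_iff.1 hDq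
    have h3 := ((hB.DSok D hD).1.2.2.2.2.2.1 k' hk').2
    have h4 : D.1.pt = x := (Prod.ext_iff.1 he).2
    rwa [h4] at h3

theorem seq [Nontrivial X] (hNull : 𝓔.NullStmt) (hTop : 𝓔.TopStmt) (hBot : 𝓔.BotStmt)
    (hAl : 𝓔.AlongStmt) (hRun : 𝓔.RunStmt) (hCF : 𝓔.ContFullStmt) (hHK : 𝓔.HKStmt) :
    𝓔.SeqStmt := by
  classical
  intro M hM hE
  obtain ⟨T, p, hT⟩ := hTop M hM hE
  set η : ℕ → ℝ := fun m => min (1 / ((m : ℝ) + 1)) (T.r (m + 2) / 8) with hη
  set F : ℕ → Set ι := fun m => {i | ¬ Small (1 / ((m : ℝ) + 1)) (𝓔.c i)} with hF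
  have hrpos : ∀ m, 0 < T.r (m + 2) := fun m => (hT.levelA (m + 2) (by omega)).rpos
  have hηpos : ∀ m, 0 < η m := fun m => lt_min (by positivity) (by have := hrpos m; positivity)
  have hηle : ∀ m, η m ≤ 1 / ((m : ℝ) + 1) := fun m => min_le_left _ _
  have hη8 : ∀ m, 8 * η m ≤ T.r (m + 2) := by
    intro m
    have : η m ≤ T.r (m + 2) / 8 := min_le_right _ _
    linarith
  have hFfin : ∀ m, (F m).Finite := fun m => hNull _ (by positivity)
  have hη0 : Filter.Tendsto η Filter.atTop (𝓝 0) :=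
    squeeze_zero (fun m => (hηpos m).le) hηle tendsto_one_div_add_atTop_nhds_zero_nat
  have hlev := fun m : ℕ => exists_level hBot hAl hRun hCF hT (m := m + 2) (by omega) (hηpos m)
    (hη8 m) (hFfin m)
  choose g g1 g2 g3 g4 g5 g6 g7 g8 using hlev
  -- every edge is eventually in `F m`
  have hFev : ∀ i, ∀ᶠ m in Filter.atTop, i ∈ F m := by
    intro i
    have hd : 0 < dist (𝓔.φ i 0) (𝓔.φ i 1) :=
      dist_pos.2 fun h => zero_ne_one (𝓔.inj i h)
    have := (tendsto_one_div_add_atTop_nhds_zero_nat (𝕜 := ℝ)).eventually (gt_mem_nhds hd)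
    refine this.mono fun m hm hS => ?_
    exact absurd (hS _ (mem_range_self 0) _ (mem_range_self 1)) (not_le.2 hm)
  have hedge : ∀ i, ∀ᶠ m in Filter.atTop, Sum.inl i ∈ items (g m) := by
    intro i
    refine (hFev i).mono fun m hm => g5 m i hm fun hS => hm ?_
    exact fun y hy z hz => (hS y hy z hz).trans (hηle m)
  -- markers
  set MK : Set ℕ := {k | ∃ n x, 2 ≤ n ∧ (k, x) ∈ T.marks n} with hMK
  have hqex : ∀ k, ∃ x, k ∈ MK → ∃ n, 2 ≤ n ∧ (k, x) ∈ T.marks n := by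
    intro k
    by_cases hk : k ∈ MK
    · obtain ⟨n, x, h2, hx⟩ := hk
      exact ⟨x, fun _ => ⟨n, h2, hx⟩⟩
    · exact ⟨p, fun h => absurd h hk⟩
  choose q hq using hqex
  have hne : ∀ᶠ m in Filter.atTop, g m ≠ [] := by
    by_cases hι : Nonempty ι
    · obtain ⟨i⟩ := hι
      refine (hedge i).mono fun m hm h => ?_
      rw [h] at hm
      simp [items] at hm
    · obtain ⟨x0, hx0⟩ := exists_ne p
      have hx0G : x0 ∈ 𝓔.G := by
        intro h
        obtain ⟨i, -⟩ := mem_iUnion.1 h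
        exact hι ⟨i⟩
      have hd : 0 < dist x0 p / 2 := by
        have := dist_pos.2 hx0
        linarith
      refine (hη0.eventually (gt_mem_nhds hd)).mono fun m hm h => ?_
      rcases g8 m x0 hx0G with ⟨y, hy, -⟩ | hy
      · rw [h] at hy
        simp at hy
      · linarith
  refine ⟨p, g, η, MK, q, hT.pG, g2, hη0, g3, g4, hedge, ?_, ?_, ?_, ?_⟩
  · intro k hk
    obtain ⟨n, h2, hx⟩ := hq k hk
    refine ⟨mark_mem hT h2 hx, ?_⟩
    refine (Filter.eventually_ge_atTop n).mono fun m hm => ?_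
    exact g7 m n h2 (by omega) k (q k) hx
  · intro m k x hkx
    obtain ⟨n, h2, -, hn⟩ := g6 m k x hkx
    have hk : k ∈ MK := ⟨n, x, h2, hn⟩
    refine ⟨hk, ?_⟩
    obtain ⟨n', h2', hn'⟩ := hq k hk
    exact mark_unique hT h2 h2' hn hn'
  · intro θ hθ
    obtain ⟨k, hk3, hkθ⟩ : ∃ k, 3 ≤ k ∧ 12 * T.κ k ≤ θ := by
      have h1 : ∀ᶠ k in Filter.atTop, T.κ k < θ / 12 :=
        hT.κ0.eventually (gt_mem_nhds (by positivity))
      obtain ⟨k, h2, h3⟩ := (h1.and (Filter.eventually_ge_atTop 3)).exists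
      exact ⟨k, h3, by linarith⟩
    obtain ⟨E, F0, η0, N, hEf, hF0f, hη0pos, -, -, hfin⟩ := hHK T M p hT k hk3
    refine ⟨{x ∈ E | ∀ k, x = Sum.inr k → k ∈ MK}, hEf.subset (sep_subset _ _),
      fun k hk => hk.2 k rfl, ?_⟩
    have e1 : ∀ᶠ m in Filter.atTop, ∀ i ∈ F0, i ∈ F m := by
      rw [Filter.eventually_all_finite hF0f]
      exact fun i _ => hFev i
    have e2 : ∀ᶠ m in Filter.atTop, η m < η0 := hη0.eventually (gt_mem_nhds hη0pos)
    filter_upwards [e1, e2, Filter.eventually_ge_atTop N] with m h1 h2 h3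
    intro w1 w2 w3 hw hav
    obtain ⟨T', C0, bw, C, SW, hag, hA', hBO, hBW, c1, c2, c3, c4, c5, c6⟩ := g1 m
    have hcon := hfin (m + 2) (by omega) T' (η m) (F m) C0 bw C SW (g m)
      (fun n hn => ⟨hag.arc n hn, hag.U n hn, hag.FA n hn, hag.DV n hn, hag.DS n hn,
        hag.PK n hn⟩) hag.κ hag.ρ hag.r (hηpos m) h2.le h1 hA' hBO hBW c1 c2 c3 c4 c5 c6 (g2 m)
      (g3 m) w1 w2 w3 hw (by
        intro x hx hxE
        refine hav x hx ⟨hxE, ?_⟩
        rintro k rfl
        have hxg : Sum.inr k ∈ items (g m) := by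
          rw [hw, items_append, items_append]
          exact List.mem_append_left _ (List.mem_append_right _ hx)
        obtain ⟨y, hy⟩ := mem_items_inr.1 hxg
        obtain ⟨n, hn2, -, hn⟩ := g6 m k y hy
        exact ⟨n, y, hn2, hn⟩)
    intro y hy z hz
    exact (hcon y hy z hz).trans hkθ
  · intro x hx ε hε
    have e1 : ∀ᶠ m in Filter.atTop, η m < ε / 2 := hη0.eventually (gt_mem_nhds (by positivity))
    filter_upwards [e1, hne] with m h1 h2
    rcases g8 m x hx with ⟨y, hy, hd⟩ | hd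
    · exact ⟨y, hy, by linarith⟩
    · exact ⟨p, EdgeSys.IsW.start_mem h2 (g2 m), by linarith⟩

end Pool.Agent.EU.H97
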