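import Pool.Agent.Helper17_EU.StmtsT

/-! # Basic facts on edge systems -/

open Set Metric Topology unitInterval

noncomputable section

namespace Pool.Agent.EU.H97

open Pool.Agent.EU

universe u v

variable {X : Type u} [MetricSpace X] {ι : Type v} (𝓔 : EdgeSys X ι)

theorem isOpen_o (i : ι) : IsOpen (𝓔.o i) := 𝓔.opn i

theorem isClosed_G : IsClosed 𝓔.G := (isOpen_iUnion fun i => 𝓔.opn i).isClosed_compl

theorem isClosed_Y (S : Set ι) : IsClosed (𝓔.Y S) :=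
  (isOpen_biUnion fun i _ => 𝓔.opn i).isClosed_compl

theorem o_nonempty (i : ι) : (𝓔.o i).Nonempty := by
  have h : (⟨1 / 2, by norm_num, by norm_num⟩ : I) ∈ Ioo (0 : I) 1 := by
    constructor
    · rw [← Subtype.coe_lt_coe]; norm_num
    · rw [← Subtype.coe_lt_coe]; norm_num
  exact ⟨_, mem_image_of_mem _ h⟩

theorem o_subset_c (i : ι) : 𝓔.o i ⊆ 𝓔.c i := image_subset_range _ _

theorem isClosed_c (i : ι) : IsClosed (𝓔.c i) := (isCompact_range (𝓔.φ i).continuous).isClosed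

theorem closure_Ioo_I : closure (Ioo (0 : I) 1) = univ := by
  rw [closure_Ioo (by simp)]
  ext x
  simp only [mem_Icc, mem_univ, iff_true]
  exact ⟨unitInterval.nonneg', unitInterval.le_one'⟩

theorem c_subset_closure_o (i : ι) : 𝓔.c i ⊆ closure (𝓔.o i) := by
  have h := image_closure_subset_closure_image (f := 𝓔.φ i) (s := Ioo (0 : I) 1)
    (𝓔.φ i).continuous
  rw [closure_Ioo_I, image_univ] at h
  exact h

theorem end_mem_G (i : ι) (t : I) (ht : t = 0 ∨ t = 1) : 𝓔.φ i t ∈ 𝓔.G := by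
  intro h
  obtain ⟨j, hj⟩ := mem_iUnion.1 h
  by_cases hij : i = j
  · subst hij
    obtain ⟨s, hs, he⟩ := hj
    have := 𝓔.inj i he
    subst this
    rcases ht with rfl | rfl
    · exact lt_irrefl _ hs.1
    · exact lt_irrefl _ hs.2
  · have h1 : 𝓔.φ i t ∈ closure (𝓔.o i) := c_subset_closure_o 𝓔 i (mem_range_self t)
    obtain ⟨x, hx1, hx2⟩ := mem_closure_iff.1 h1 _ (𝓔.opn j) hj
    exact Set.disjoint_left.1 (𝓔.disj i j hij) hx2 hx1

theorem not_mem_o_of_mem_G {x : X} (hx : x ∈ 𝓔.G) (i : ι) : x ∉ 𝓔.o i :=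
  fun h => hx (mem_iUnion.2 ⟨i, h⟩)

theorem exists_o_of_not_mem_G {x : X} (hx : x ∉ 𝓔.G) : ∃ i, x ∈ 𝓔.o i := by
  by_contra h
  push Not at h
  exact hx fun h' => by
    obtain ⟨i, hi⟩ := mem_iUnion.1 h'
    exact h i hi

theorem o_eq_of_mem {i j : ι} {x : X} (hi : x ∈ 𝓔.o i) (hj : x ∈ 𝓔.o j) : i = j := by
  by_contra h
  exact Set.disjoint_left.1 (𝓔.disj i j h) hi hj

variable {𝓔}

/-- a time at which the arc is in the open edge lies in the interior of the run interval -/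
theorem runs_mem_Ioo {a : 𝓔.Arc} {i : ι} {b : Bool} {s t p : I} (h : a.Runs i b s t)
    (hp : a.f p ∈ 𝓔.o i) : p ∈ Ioo s t := by
  have h1 := h.2.2.1
  rw [← h1] at hp
  obtain ⟨q, hq, he⟩ := hp
  rwa [← a.inj he]

theorem runs_start_mem_G {a : 𝓔.Arc} {i : ι} {b : Bool} {s t : I} (h : a.Runs i b s t) :
    a.f s ∈ 𝓔.G := by
  have h1 := h.2.2.2
  split_ifs at h1
  · rw [h1.1]; exact end_mem_G 𝓔 i 0 (Or.inl rfl)
  · rw [h1.1]; exact end_mem_G 𝓔 i 1 (Or.inr rfl)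

theorem runs_end_mem_G {a : 𝓔.Arc} {i : ι} {b : Bool} {s t : I} (h : a.Runs i b s t) :
    a.f t ∈ 𝓔.G := by
  have h1 := h.2.2.2
  split_ifs at h1
  · rw [h1.2]; exact end_mem_G 𝓔 i 1 (Or.inr rfl)
  · rw [h1.2]; exact end_mem_G 𝓔 i 0 (Or.inl rfl)

/-- a ground time is not strictly inside a run interval -/
theorem runs_ground {a : 𝓔.Arc} {i : ι} {b : Bool} {s t u : I} (h : a.Runs i b s t)
    (hu : a.f u ∈ 𝓔.G) : ¬ (s < u ∧ u < t) := by
  intro hu'
  have : a.f u ∈ 𝓔.o i := by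
    rw [← h.2.2.1]
    exact mem_image_of_mem _ hu'
  exact not_mem_o_of_mem_G 𝓔 hu i this

/-- every non ground time of an arc lies in a run interval -/
theorem exists_runs (hD : 𝓔.ArcDichStmt) (hR : 𝓔.ArcRunsStmt) (a : 𝓔.Arc) {p : I}
    (hp : a.f p ∉ 𝓔.G) : ∃ i b s t, i ∈ a.E ∧ a.f p ∈ 𝓔.o i ∧ a.Runs i b s t ∧ s < p ∧ p < t := by
  obtain ⟨i, hi⟩ := exists_o_of_not_mem_G 𝓔 hp
  have hE : i ∈ a.E := by
    rcases hD a i with h | h
    · exact h
    · exact absurd (mem_range_self p) (Set.disjoint_left.1 h hi)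
  obtain ⟨b, s, t, h⟩ := hR a i hE
  have := runs_mem_Ioo h hi
  exact ⟨i, b, s, t, hE, hi, h, this.1, this.2⟩

end Pool.Agent.EU.H97
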