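import Pool.Agent.Helper17_EU.TowerCont
import Pool.Agent.Helper17_EU.StmtsF
import Pool.Agent.Helper17_EU.StmtsT
import Pool.Agent.Helper97_EU.Basic

/-! # Module SEQ, part 1: towers which agree below a level -/

open Set Metric Topology unitInterval

noncomputable section

namespace Pool.Agent.EU.H97

open Pool.Agent.EU

universe u v

variable {X : Type u} [MetricSpace X] {ι : Type v} {𝓔 : EdgeSys X ι}

/-- `T'` agrees with `T` below level `m` -/
structure Agree (T T' : 𝓔.Tower) (m : ℕ) : Prop where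
  arc : ∀ n < m, T'.arc n = T.arc n
  U : ∀ n < m, T'.U n = T.U n
  FA : ∀ n < m, T'.FA n = T.FA n
  DV : ∀ n < m, T'.DV n = T.DV n
  DS : ∀ n < m, T'.DS n = T.DS n
  PK : ∀ n < m, T'.PK n = T.PK n
  κ : T'.κ = T.κ
  ρ : T'.ρ = T.ρ
  r : T'.r = T.r

namespace Agree

variable {T T' : 𝓔.Tower} {m : ℕ}

theorem ids (h : Agree T T' m) {n : ℕ} (hn : n < m) : T'.ids n = T.ids n := by
  unfold EdgeSys.Tower.ids
  rw [h.FA n hn, h.DV n hn, h.DS n hn]

theorem marks (h : Agree T T' m) {n : ℕ} (hn : n < m) : T'.marks n = T.marks n := by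
  unfold EdgeSys.Tower.marks
  rw [h.DV n hn, h.DS n hn]

theorem arcs (h : Agree T T' m) {n : ℕ} (hn : n < m) : T'.arcs n = T.arcs n := by
  unfold EdgeSys.Tower.arcs
  rw [h.ids hn, h.arc n hn]

theorem S (h : Agree T T' m) {n : ℕ} (hn : n < m) : T'.S n = T.S n := by
  unfold EdgeSys.Tower.S
  ext i
  constructor
  · rintro ⟨l, hl, hi⟩
    exact ⟨l, hl, by rwa [h.arcs (by omega)] at hi⟩
  · rintro ⟨l, hl, hi⟩
    exact ⟨l, hl, by rwa [h.arcs (by omega)]⟩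

theorem V (h : Agree T T' m) {n : ℕ} (hn : n < m) : T'.V n = T.V n := by
  ext x
  rw [EdgeSys.Tower.mem_V, EdgeSys.Tower.mem_V]
  constructor
  · rintro ⟨l, h1, h2, h3⟩
    exact ⟨l, h1, h2, by rwa [h.U l (by omega)] at h3⟩
  · rintro ⟨l, h1, h2, h3⟩
    exact ⟨l, h1, h2, by rwa [h.U l (by omega)]⟩

theorem P (h : Agree T T' m) {n : ℕ} (hn : n < m) : T'.P n = T.P n := by
  unfold EdgeSys.Tower.P
  rw [h.PK n hn]

theorem U' (h : Agree T T' m) {n : ℕ} (hn : n < m) : T'.U' n = T.U' n := by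
  unfold EdgeSys.Tower.U'
  rw [h.U n hn, h.P hn]

theorem dA (h : Agree T T' m) {n : ℕ} (hn : n < m) : T'.dA n = T.dA n := by
  unfold EdgeSys.Tower.dA
  funext v
  refine Finset.sum_congr rfl fun l hl => ?_
  have : l < m := by
    have := Finset.mem_range.1 hl
    omega
  rw [h.FA l this, h.arc l this]

theorem slots (h : Agree T T' m) {n : ℕ} (hn : n < m) : T'.slots n = T.slots n := by
  unfold EdgeSys.Tower.slots
  rw [h.DS n hn, h.PK n hn]

theorem isHost (h : Agree T T' m) {n : ℕ} (hn : n ≤ m) (x : ℕ × ℕ) :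
    T'.IsHost n x ↔ T.IsHost n x := by
  unfold EdgeSys.Tower.IsHost
  constructor
  · rintro ⟨h1, h2, h3⟩
    exact ⟨h1, h2, by rwa [h.ids (by omega)] at h3⟩
  · rintro ⟨h1, h2, h3⟩
    exact ⟨h1, h2, by rwa [h.ids (by omega)]⟩

theorem decoOK (h : Agree T T' m) {n : ℕ} (hn : n < m) (M : Set X) (D : Deco X ι) :
    T'.DecoOK M n D ↔ T.DecoOK M n D := by
  unfold EdgeSys.Tower.DecoOK
  rw [h.arc n hn, h.κ]

theorem levelA (h : Agree T T' m) {n : ℕ} (h2 : 2 ≤ n) (hn : n < m) (hA : T.LevelA n) :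
    T'.LevelA n := by
  have e1 := h.V (n := n - 1) (by omega)
  have e2 := h.S (n := n - 1) (by omega)
  refine ⟨?_, ?_, ?_, ?_, ?_, ?_, ?_, ?_, ?_, ?_, ?_, ?_⟩
  · rw [h.U n hn]; exact hA.UG
  · rw [h.U n hn, e1]; exact hA.Udisj
  · rw [h.U n hn, h.P hn]; exact hA.PU
  · rw [h.PK n hn]; exact hA.Pnodup
  · rw [h.PK n hn]
    intro p hp
    have := hA.Phost p hp
    rw [h.isHost hn.le]
    refine ⟨this.1, ?_⟩
    rw [h.arc _ (lt_trans this.1.2.1 hn)]
    exact this.2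
  · rw [h.P hn, e1, e2]; exact hA.Piso
  · rw [e1, e2, h.r]; exact hA.big
  · rw [h.κ, h.ρ]; exact hA.stage
  · rw [h.κ, h.ρ]; exact hA.ρκ
  · rw [h.κ]; exact hA.κpos
  · rw [h.r]; exact hA.rpos
  · rw [h.r, h.ρ]; exact hA.rρ

theorem levelB (h : Agree T T' m) {n : ℕ} (h2 : 2 ≤ n) (hn : n < m) {M : Set X}
    (hB : T.LevelB M n) : T'.LevelB M n := by
  have e1 := h.V (n := n - 1) (by omega)
  have e2 := h.S (n := n - 1) (by omega)
  refine ⟨?_, ?_, ?_, ?_, ?_, ?_, ?_, ?_, ?_, ?_, ?_, ?_, ?_, ?_, ?_⟩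
  · rw [h.ids hn]; exact hB.idsNodup
  · rw [h.ids hn, h.arc n hn, e2]; exact hB.disjLow
  · rw [h.ids hn, h.arc n hn]; exact hB.disjSame
  · rw [h.ids hn, h.arc n hn, e2]; exact hB.rangeY
  · rw [h.FA n hn, h.arc n hn, h.V hn, h.U' hn]; exact hB.FAends
  · rw [h.FA n hn, h.arc n hn, h.r]; exact hB.FAsmall
  · rw [h.U' hn, h.FA n hn, h.arc n hn, e1, h.P hn, h.r]; exact hB.rooted
  · rw [h.DV n hn, h.U (n - 1) (by omega)]
    intro D hD
    rw [h.decoOK hn]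
    exact hB.DVok D hD
  · rw [h.DS n hn]
    intro D hD
    have := hB.DSok D hD
    rw [h.decoOK hn, h.isHost hn.le]
    refine ⟨this.1, this.2.1, ?_⟩
    rw [h.arc _ (lt_trans this.2.1.2.1 hn)]
    exact this.2.2
  · rw [h.κ, h.ρ]; exact hB.κρ
  · rw [h.κ]; exact hB.κκ
  · rw [h.κ]; exact hB.κpos'
  · rw [h.κ, e1]; exact hB.κd
  · rw [h.marks hn]; exact hB.marksNodup
  · intro l hl
    rw [h.marks hn, h.marks (by omega)]
    exact hB.marksLow l hl

end Agree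

/-- replace level `m` by bottom data -/
def bot (T : 𝓔.Tower) (m : ℕ) (N : Finset X) (PKm : List (X × (ℕ × ℕ) × I)) : 𝓔.Tower where
  arc := T.arc
  U := fun n => if n = m then N else T.U n
  FA := fun n => if n = m then [] else T.FA n
  DV := fun n => if n = m ∨ n = m + 1 then [] else T.DV n
  DS := fun n => if n = m then [] else T.DS n
  PK := fun n => if n = m then PKm else T.PK n
  κ := T.κ
  ρ := T.ρ
  r := T.r

theorem agree_bot (T : 𝓔.Tower) (m : ℕ) (N : Finset X) (PKm : List (X × (ℕ × ℕ) × I)) :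
    Agree T (bot T m N PKm) m := by
  refine ⟨fun n _ => rfl, fun n hn => ?_, fun n hn => ?_, fun n hn => ?_, fun n hn => ?_,
    fun n hn => ?_, rfl, rfl, rfl⟩
  · exact if_neg (by omega)
  · exact if_neg (by omega)
  · exact if_neg (by omega)
  · exact if_neg (by omega)
  · exact if_neg (by omega)

theorem isClosed_RL (l : List 𝓔.Arc) : IsClosed (𝓔.RL l) := by
  have : 𝓔.RL l = ⋃ a ∈ {a | a ∈ l}, range a.f := by
    ext x
    simp [EdgeSys.RL]
  rw [this]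
  exact (List.finite_toSet l).isClosed_biUnion fun a _ =>
    (isCompact_range a.f.continuous).isClosed

/-- HOST -/
theorem host (T : 𝓔.Tower) (h0 : T.ids 0 = []) (h1 : T.ids 1 = []) {n : ℕ} {x : X}
    (hx : x ∈ 𝓔.R (T.S n)) : ∃ l j t, 2 ≤ l ∧ l ≤ n ∧ j ∈ T.ids l ∧ (T.arc l j).f t = x := by
  have hsub : (⋃ i ∈ T.S n, 𝓔.o i) ⊆ ⋃ l ∈ {l : ℕ | l ≤ n}, 𝓔.RL (T.arcs l) := by
    intro y hy
    obtain ⟨i, ⟨l, hl, a, ha, hi⟩, hyi⟩ := mem_iUnion₂.1 hy
    exact mem_iUnion₂.2 ⟨l, hl, a, ha, hi hyi⟩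
  have hcl : IsClosed (⋃ l ∈ {l : ℕ | l ≤ n}, 𝓔.RL (T.arcs l)) :=
    (Set.finite_Iic n).isClosed_biUnion fun l _ => isClosed_RL _
  have hx' := closure_minimal hsub hcl hx
  obtain ⟨l, hl, a, ha, t, ht⟩ := mem_iUnion₂.1 hx'
  unfold EdgeSys.Tower.arcs at ha
  obtain ⟨j, hj, rfl⟩ := List.mem_map.1 ha
  refine ⟨l, j, t, ?_, hl, hj, ht⟩
  by_contra hcon
  have : l = 0 ∨ l = 1 := by omega
  rcases this with rfl | rfl
  · rw [h0] at hj; exact absurd hj List.not_mem_nil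
  · rw [h1] at hj; exact absurd hj List.not_mem_nil

end Pool.Agent.EU.H97
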