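import Pool.Agent.Helper97_EU.Agree

/-! # Module SEQ, part 2: one level -/

open Set Metric Topology unitInterval

noncomputable section

namespace Pool.Agent.EU.H97

open Pool.Agent.EU

universe u v

section multiset

variable {α : Type*}

theorem mem_list_msum {J : List ℕ} {f : ℕ → Multiset α} {a : α} :
    a ∈ (J.map f).sum ↔ ∃ j ∈ J, a ∈ f j := by
  induction J with
  | nil => simp
  | cons b J ih => simp [ih]

theorem nodup_list_msum {J : List ℕ} (hJ : J.Nodup) {f : ℕ → Multiset α}
    (h1 : ∀ j ∈ J, (f j).Nodup) (h2 : ∀ j ∈ J, ∀ j' ∈ J, j ≠ j' → Disjoint (f j) (f j')) :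
    ((J.map f).sum).Nodup := by
  induction J with
  | nil => simp
  | cons b J ih =>
    obtain ⟨hb, hJ'⟩ := List.nodup_cons.1 hJ
    rw [List.map_cons, List.sum_cons, Multiset.nodup_add]
    refine ⟨h1 b List.mem_cons_self, ih hJ' (fun j hj => h1 j (List.mem_cons_of_mem _ hj))
      (fun j hj j' hj' => h2 j (List.mem_cons_of_mem _ hj) j' (List.mem_cons_of_mem _ hj')), ?_⟩
    rw [Multiset.disjoint_left]
    intro a ha ha'
    obtain ⟨j, hj, hja⟩ := mem_list_msum.1 ha'
    have hne : b ≠ j := fun h => hb (h ▸ hj)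
    exact Multiset.disjoint_left.1 (h2 b List.mem_cons_self j (List.mem_cons_of_mem _ hj) hne) ha hja

theorem nodup_finset_msum {s : Finset ℕ} {f : ℕ → Multiset α}
    (h1 : ∀ j ∈ s, (f j).Nodup) (h2 : ∀ j ∈ s, ∀ j' ∈ s, j ≠ j' → Disjoint (f j) (f j')) :
    (∑ j ∈ s, f j).Nodup := by
  classical
  induction s using Finset.induction_on with
  | empty => simp
  | insert b s hb ih =>
    rw [Finset.sum_insert hb, Multiset.nodup_add]
    refine ⟨h1 b (Finset.mem_insert_self _ _), ih (fun j hj => h1 j (Finset.mem_insert_of_mem hj))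
      (fun j hj j' hj' => h2 j (Finset.mem_insert_of_mem hj) j' (Finset.mem_insert_of_mem hj')), ?_⟩
    rw [Multiset.disjoint_left]
    intro a ha ha'
    obtain ⟨j, hj, hja⟩ := Multiset.mem_sum.1 ha'
    have hne : b ≠ j := fun h => hb (h ▸ hj)
    exact Multiset.disjoint_left.1 (h2 b (Finset.mem_insert_self _ _) j
      (Finset.mem_insert_of_mem hj) hne) ha hja

end multiset

variable {X : Type u} {ι : Type v}

theorem tit_list_msum (J : List ℕ) (f : ℕ → Multiset (List (Step X ι))) :
    tit ((J.map f).sum) = (J.map (fun j => tit (f j))).sum := by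
  induction J with
  | nil => simp
  | cons b J ih => simp [ih]

theorem tit_finset_msum (s : Finset ℕ) (f : ℕ → Multiset (List (Step X ι))) :
    tit (∑ j ∈ s, f j) = ∑ j ∈ s, tit (f j) := by
  classical
  induction s using Finset.induction_on with
  | empty => simp
  | insert b s hb ih => rw [Finset.sum_insert hb, Finset.sum_insert hb, tit_add, ih]

theorem tit_marks (L : List (ℕ × X)) :
    tit (Multiset.ofList (L.map (fun p => ([Step.mark p.1 p.2] : List (Step X ι))))) =
      Multiset.ofList (L.map (fun p => (Sum.inr p.1 : ι ⊕ ℕ))) := by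
  induction L with
  | nil => rfl
  | cons b L ih =>
    rw [List.map_cons, ← Multiset.cons_coe, tit_cons, ih, List.map_cons, ← Multiset.cons_coe]
    rfl

variable [MetricSpace X] {𝓔 : EdgeSys X ι}

theorem IsW_flatten {p : X} (L : List (List (Step X ι))) (h : ∀ w ∈ L, 𝓔.IsW p w p) :
    𝓔.IsW p L.flatten p := by
  induction L with
  | nil => exact EdgeSys.IsW.nil p
  | cons w L ih =>
    rw [List.flatten_cons]
    exact (h w List.mem_cons_self).append (ih fun w hw => h w (List.mem_cons_of_mem _ hw))

/-- points of the supports of the pieces are points of the support of the result -/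
theorem supW_of_asm {P : Multiset (List (Step X ι))} {g : List (Step X ι)} (h : Asm P {g})
    {w : List (Step X ι)} (hw : w ∈ P) {y : X} (hy : y ∈ 𝓔.supW w) : y ∈ 𝓔.supW g := by
  obtain ⟨s, hs, hys⟩ := hy
  obtain ⟨w', hw', h'⟩ := h.exists_step (s := s) ⟨w, hw, Or.inl hs⟩
  rw [Multiset.mem_singleton] at hw'
  subst hw'
  rcases h' with h' | h'
  · exact ⟨s, h', hys⟩
  · exact ⟨s.rev, h', by rwa [EdgeSys.supp_rev]⟩

omit [MetricSpace X] in
theorem mark_of_asm {P : Multiset (List (Step X ι))} {g : List (Step X ι)} (h : Asm P {g})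
    {k : ℕ} {x : X} (hw : [Step.mark k x] ∈ P) : Step.mark k x ∈ g := by
  obtain ⟨w', hw', h'⟩ := h.exists_step (s := Step.mark k x) ⟨_, hw, Or.inl List.mem_cons_self⟩
  rw [Multiset.mem_singleton] at hw'
  subst hw'
  rcases h' with h' | h'
  · exact h'
  · exact h'

end Pool.Agent.EU.H97
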