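import Pool.Agent.Helper97_EU.SeqA
import Pool.Agent.Helper97_EU.Pieces

/-! # Module SEQ, part 3: the walk at level `m` -/

open Set Metric Topology unitInterval

noncomputable section

namespace Pool.Agent.EU.H97

open Pool.Agent.EU

universe u v

variable {X : Type u} [MetricSpace X] {ι : Type v} {𝓔 : EdgeSys X ι}

theorem FA_nil {T : 𝓔.Tower} {n : ℕ} (h : T.ids n = []) : T.FA n = [] := by
  unfold EdgeSys.Tower.ids at h
  rw [List.append_eq_nil_iff, List.append_eq_nil_iff] at h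
  exact h.1.1

theorem V_ground {T : 𝓔.Tower} {M : Set X} {p : X} (hT : 𝓔.TopOK T M p) {n : ℕ} {v : X}
    (hv : v ∈ T.V n) : v ∈ 𝓔.G := by
  obtain ⟨l, h1, h2, h3⟩ := (T.mem_V).1 hv
  rcases Nat.lt_or_ge l 2 with h | h
  · have : l = 1 := by omega
    subst this
    rw [hT.U1, Finset.mem_singleton] at h3
    rw [h3]; exact hT.pG
  · exact (hT.levelA l h).UG v h3

theorem dA_zero {T : 𝓔.Tower} {M : Set X} {p : X} (hT : 𝓔.TopOK T M p) {n : ℕ} {v : X}
    (hv : v ∉ T.V n) : T.dA n v = 0 := by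
  unfold EdgeSys.Tower.dA
  refine Finset.sum_eq_zero fun l hl => ?_
  have hln : l ≤ n := by
    have := Finset.mem_range.1 hl
    omega
  rcases Nat.lt_or_ge l 2 with h | h
  · have : T.FA l = [] := by
      have : l = 0 ∨ l = 1 := by omega
      rcases this with rfl | rfl
      · exact FA_nil hT.ids0
      · exact FA_nil hT.ids1
    rw [this]
    simp [EdgeSys.degL]
  · have hends := (hT.levelB l h).FAends
    unfold EdgeSys.degL
    rw [Nat.add_eq_zero_iff]
    constructor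
    · rw [List.countP_eq_zero]
      intro a ha
      obtain ⟨j, hj, rfl⟩ := List.mem_map.1 ha
      intro hcon
      apply hv
      have : (T.arc l j).f 0 = v := by simpa using hcon
      rw [← this]
      exact T.V_mono hln (hends j hj).1
    · rw [List.countP_eq_zero]
      intro a ha
      obtain ⟨j, hj, rfl⟩ := List.mem_map.1 ha
      intro hcon
      apply hv
      have : (T.arc l j).f 1 = v := by simpa using hcon
      rw [← this]
      exact T.V_mono hln (hends j hj).2.1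

/-- every vertex different from `p` lies on a reserved arc -/
theorem vertex_on_arc {T : 𝓔.Tower} {M : Set X} {p : X} (hT : 𝓔.TopOK T M p) {n : ℕ} {v : X}
    (hv : v ∈ T.V n) (hvp : v ≠ p) : ∃ l j t, 2 ≤ l ∧ l ≤ n ∧ j ∈ T.ids l ∧
      (T.arc l j).f t = v := by
  obtain ⟨l, h1, h2, h3⟩ := (T.mem_V).1 hv
  rcases Nat.lt_or_ge l 2 with h | h
  · have : l = 1 := by omega
    subst this
    rw [hT.U1, Finset.mem_singleton] at h3
    exact absurd h3 hvp
  · by_cases hP : v ∈ T.P l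
    · obtain ⟨q, hq, hqv⟩ := (T.mem_P).1 hP
      obtain ⟨hh, he⟩ := (hT.levelA l h).Phost q hq
      exact ⟨q.2.1.1, q.2.1.2, q.2.2, hh.1, by have := hh.2.1; omega, hh.2.2, by rw [he, hqv]⟩
    · have hU' : v ∈ T.U' l := (T.mem_U').2 ⟨h3, hP⟩
      obtain ⟨w, t, ht, hch, -⟩ := (hT.levelB l h).rooted v hU'
      have hvt : v ≠ t := by
        rintro rfl
        rcases ht with ht | ht
        · exact (hT.levelA l h).Udisj v h3 ht
        · exact hP ht
      cases hch with
      | nil => exact absurd rfl hvt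
      | fwd a w y ha _ =>
        obtain ⟨j, hj, rfl⟩ := List.mem_map.1 ha
        exact ⟨l, j, 0, h, h2, T.mem_ids_FA hj, rfl⟩
      | bwd a w y ha _ =>
        obtain ⟨j, hj, rfl⟩ := List.mem_map.1 ha
        exact ⟨l, j, 1, h, h2, T.mem_ids_FA hj, rfl⟩

/-- all hypotheses of HK at level `m` -/
def HKhyp (T : 𝓔.Tower) (m : ℕ) (η : ℝ) (F : Set ι) (g : List (Step X ι)) : Prop :=
  ∃ (T' : 𝓔.Tower) (C0 : Multiset (TW X ι)) (bw : EdgeSys.Tower.BW X ι)
    (C : ℕ → Multiset (TW X ι)) (SW : ℕ → List (List (Step X ι))),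
    Agree T T' m ∧ T'.LevelA m ∧ T'.BottomOK m η F C0 ∧ T'.BWok m η F bw ∧
    C m = C0 ∧ (∀ n, 2 ≤ n → n ≤ m → T'.SWok SW n) ∧
    (∀ n, 2 ≤ n → n ≤ m → ∃ pw, SW n =
      (T'.DS n).map (fun D => T'.dcont m bw SW n D.1) ++ pw) ∧
    (∀ n, 1 ≤ n → n < m → T'.COK m bw SW (C n) n) ∧
    (∀ n, 2 ≤ n → n ≤ m →
      Asm (EdgeSys.und (C n) + Multiset.ofList ((T'.FA n).map (T'.cont m bw SW n)) +
          Multiset.ofList ((T'.DV (n + 1)).map (T'.dcont m bw SW (n + 1))) +
          Multiset.ofList ((T'.DS n).map (fun D => T'.dcont m bw SW n D.1)))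
        (EdgeSys.und (C (n - 1)) + Multiset.ofList (SW n))) ∧
    Asm (EdgeSys.und (C 1)) {g}

theorem exists_level (hBot : 𝓔.BotStmt) (hAl : 𝓔.AlongStmt) (hRun : 𝓔.RunStmt)
    (hCF : 𝓔.ContFullStmt) {T : 𝓔.Tower} {M : Set X} {p : X} (hT : 𝓔.TopOK T M p) {m : ℕ}
    (hm : 2 ≤ m) {η : ℝ} (hη : 0 < η) (hη8 : 8 * η ≤ T.r m) {F : Set ι} (hF : F.Finite) :
    ∃ g : List (Step X ι), HKhyp T m η F g ∧ 𝓔.IsW p g p ∧ (∀ s ∈ g, 𝓔.GoodStep η s) ∧
      (items g).Nodup ∧ (∀ i ∈ F, ¬ Small η (𝓔.c i) → Sum.inl i ∈ items g) ∧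
      (∀ k x, Step.mark k x ∈ g → ∃ n, 2 ≤ n ∧ n < m ∧ (k, x) ∈ T.marks n) ∧
      (∀ n, 2 ≤ n → n < m → ∀ k x, (k, x) ∈ T.marks n → Step.mark k x ∈ g) ∧
      (∀ x ∈ 𝓔.G, (∃ y ∈ 𝓔.supW g, dist x y ≤ 2 * η) ∨ dist x p ≤ 2 * η) := by
  classical
  have hm1 : m - 1 + 1 = m := by omega
  have hpV : p ∈ T.V (m - 1) := (T.mem_V).2 ⟨1, le_rfl, by omega, by rw [hT.U1]; simp⟩
  have hroot := hT.rooted (m - 1) (by omega)
  rw [hm1] at hroot
  obtain ⟨N, P, C0, b1, b2, b3, b4, b5, b6, b7, b8, b9, b10, b11, b12, b13⟩ :=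
    hBot (T.S (m - 1)) (T.V (m - 1)) (T.dA (m - 1)) (T.r m) η F (hT.thin _ (by omega))
      ⟨p, hpV⟩ (fun v hv => V_ground hT hv) (hT.par _ (by omega)) (fun v hv => dA_zero hT hv)
      hroot (hT.levelA m hm).big (hT.levelA m hm).rpos hη hη8 hF
  -- hosts
  have hst : ∀ p' : X, ∃ h : (ℕ × ℕ) × I, p' ∈ P → (T.IsHost m h.1 ∧
      (T.arc h.1.1 h.1.2).f h.2 = p') := by
    intro p'
    by_cases hp' : p' ∈ P
    · obtain ⟨l, j, t, h1, h2, h3, h4⟩ := host T hT.ids0 hT.ids1 (b3 p' hp').1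
      exact ⟨((l, j), t), fun _ => ⟨⟨h1, by change l < m; omega, h3⟩, h4⟩⟩
    · exact ⟨((0, 0), 0), fun h => absurd h hp'⟩
  choose hs hhs using hst
  set PKm : List (X × (ℕ × ℕ) × I) := P.toList.map (fun p' => (p', hs p')) with hPKm
  set T' := bot T m N PKm with hT'
  have hag : Agree T T' m := agree_bot T m N PKm
  have eU : T'.U m = N := if_pos rfl
  have eFA : T'.FA m = [] := if_pos rfl
  have eDV : T'.DV m = [] := if_pos (Or.inl rfl)
  have eDV' : T'.DV (m + 1) = [] := if_pos (Or.inr rfl)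
  have eDS : T'.DS m = [] := if_pos rfl
  have ePK : T'.PK m = PKm := if_pos rfl
  have eS : T'.S (m - 1) = T.S (m - 1) := hag.S (by omega)
  have eV : T'.V (m - 1) = T.V (m - 1) := hag.V (by omega)
  have eP : ∀ x, x ∈ T'.P m ↔ x ∈ P := by
    intro x
    rw [T'.mem_P, ePK, hPKm]
    constructor
    · rintro ⟨q, hq, rfl⟩
      obtain ⟨p', hp', rfl⟩ := List.mem_map.1 hq
      exact Finset.mem_toList.1 hp'
    · intro hx
      exact ⟨(x, hs x), List.mem_map.2 ⟨x, Finset.mem_toList.2 hx, rfl⟩, rfl⟩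
  have eVm : ∀ x, x ∈ T'.V m ↔ x ∈ T.V (m - 1) ∨ x ∈ N := by
    intro x
    rw [T'.mem_V_succ hm, eV, eU]
  have eidsm : T'.ids m = [] := by
    unfold EdgeSys.Tower.ids
    rw [eFA, eDV, eDS]
    rfl
  have hA' : T'.LevelA m := by
    have hA := hT.levelA m hm
    refine ⟨?_, ?_, ?_, ?_, ?_, ?_, ?_, ?_, ?_, ?_, ?_, ?_⟩
    · rw [eU]; exact fun x hx => (b1 x hx).1
    · rw [eU, eV]; exact fun x hx => (b1 x hx).2
    · rw [eU]; exact fun x hx => b2 x ((eP x).1 hx)
    · rw [ePK, hPKm, List.map_map]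
      have : (Prod.fst ∘ fun p' => (p', hs p')) = (id : X → X) := rfl
      rw [this, List.map_id]
      exact P.nodup_toList
    · rw [ePK, hPKm]
      intro q hq
      obtain ⟨p', hp', rfl⟩ := List.mem_map.1 hq
      have := hhs p' (Finset.mem_toList.1 hp')
      exact ⟨(hag.isHost le_rfl _).2 this.1, this.2⟩
    · intro q hq v hv hvc
      rw [eV] at hv
      rw [eS] at hvc
      exact (b3 q ((eP q).1 hq)).2 v (hv.imp id fun h => (eP v).1 h) hvc
    · rw [eS, eV, hag.r]; exact hA.big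
    · rw [hag.κ, hag.ρ]; exact hA.stage
    · rw [hag.κ, hag.ρ]; exact hA.ρκ
    · rw [hag.κ]; exact hA.κpos
    · rw [hag.r]; exact hA.rpos
    · rw [hag.r, hag.ρ]; exact hA.rρ
  have hBO : T'.BottomOK m η F C0 := by
    refine ⟨eFA, eDV, eDV', eDS, ?_, ?_, ?_, ?_, ?_, ?_, ?_, ?_⟩
    · intro w hw
      obtain ⟨h1, h2, h3, h4⟩ := b4 w hw
      refine ⟨h1, (eVm _).2 h2, (eVm _).2 h3, ?_⟩
      rw [eS]; exact h4
    · exact fun w hw => (b5 w hw).2
    · rw [eV]; exact b6
    · rw [hag.r]; exact b7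
    · rw [eS]; exact b8
    · exact b9
    · intro v hv
      rw [hag.dA (by omega)]
      exact b11 v ((eVm v).1 hv)
    · intro u hu
      obtain ⟨hu1, hu2⟩ := (T'.mem_U').1 hu
      rw [eU] at hu1
      obtain ⟨a, ha, l, hl⟩ := b12 u hu1 (fun h => hu2 ((eP u).2 h))
      refine ⟨a, ?_, l, ?_⟩
      · rw [eV, eP]; exact ha
      · rw [hag.r]; exact hl
  -- base walks
  have hbw : ∀ (n j : ℕ) (s t : I), ∃ w, s ≤ t → (T'.arc n j).f s ∈ 𝓔.G →
      (T'.arc n j).f t ∈ 𝓔.G → 𝓔.Along (T'.arc n j) η F s w t := by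
    intro n j s t
    by_cases h : s ≤ t ∧ (T'.arc n j).f s ∈ 𝓔.G ∧ (T'.arc n j).f t ∈ 𝓔.G
    · obtain ⟨w, hw⟩ := hAl (T'.arc n j) η F hη hF s t h.1 h.2.1 h.2.2
      exact ⟨w, fun _ _ _ => hw⟩
    · exact ⟨[], fun h1 h2 h3 => absurd ⟨h1, h2, h3⟩ h⟩
  choose bw hbw using hbw
  have hBW : T'.BWok m η F bw := fun n _ j _ s t h1 h2 h3 => hbw n j s t h1 h2 h3
  have hU1 : T'.U 1 = {p} := by rw [hag.U 1 (by omega), hT.U1]
  have hids0 : T'.ids 0 = [] := by rw [hag.ids (by omega), hT.ids0]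
  have hids1 : T'.ids 1 = [] := by rw [hag.ids (by omega), hT.ids1]
  have hU0 : T'.U 0 = ∅ := by rw [hag.U 0 (by omega), hT.U0]
  have hAall : ∀ n, 2 ≤ n → n ≤ m → T'.LevelA n := by
    intro n h2 hn
    rcases Nat.lt_or_ge n m with h | h
    · exact hag.levelA h2 h (hT.levelA n h2)
    · have : n = m := le_antisymm hn h
      subst this
      exact hA'
  have hBall : ∀ n, 2 ≤ n → n < m → T'.LevelB M n := fun n h2 hn =>
    hag.levelB h2 hn (hT.levelB n h2)
  obtain ⟨C, SW, c1, c2, c3, c4, c5⟩ := hRun T' M m η F C0 bw hm hη ⟨p, hU1⟩ hids0 hids1 hU0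
    hAall hBall hBO hBW
  -- the closed walk
  set g : List (Step X ι) := (EdgeSys.und (C 1)).toList.flatten with hg
  have hV1 : ∀ x, x ∈ T'.V 1 → x = p := by
    intro x hx
    obtain ⟨l, h1, h2, h3⟩ := (T'.mem_V).1 hx
    have : l = 1 := le_antisymm h2 h1
    subst this
    rw [hU1, Finset.mem_singleton] at h3
    exact h3
  have hgW : 𝓔.IsW p g p := by
    refine IsW_flatten _ fun w hw => ?_
    rw [Multiset.mem_toList] at hw
    obtain ⟨w', hw', rfl⟩ := Multiset.mem_map.1 hw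
    obtain ⟨h1, h2, h3, -⟩ := c4 1 le_rfl (by omega) w' hw'
    have h4 : 𝓔.IsW w'.1 w'.2.1 w'.2.2 := h1
    rwa [hV1 _ h2, hV1 _ h3] at h4
  have hgA : Asm (EdgeSys.und (C 1)) {g} := by
    have := Asm.flatten (EdgeSys.und (C 1)).toList
    rwa [Multiset.coe_toList] at this
  have H : EdgeSys.Tower.Ctx T' M m η F bw :=
    ⟨hm, hη, hU0, hids0, hids1, hAall, hBall, eFA, eDV, eDV', eDS, hBW⟩
  -- the pieces of the arcs
  have hcf : ∀ n j, ∃ Bp : Multiset (List (Step X ι)), 2 ≤ n → n < m → j ∈ T'.ids n →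
      Asm (Bp + Multiset.ofList ((T'.sorted m SW n j).map (fun p => p.2.2)))
        {T'.cont m bw SW n j} ∧
      (tit Bp).Nodup ∧ (∀ x ∈ tit Bp, ∃ i ∈ (T'.arc n j).E, x = Sum.inl i) ∧
      (∀ i ∈ (T'.arc n j).E, i ∈ F → Sum.inl i ∈ tit Bp) ∧
      (∀ w ∈ Bp, ∀ s ∈ w, 𝓔.GoodStep η s) ∧
      (∀ t : I, ∃ w ∈ Bp, ∃ y ∈ 𝓔.supW w, dist ((T'.arc n j).f t) y ≤ η) := by
    intro n j
    by_cases h : 2 ≤ n ∧ n < m ∧ j ∈ T'.ids n
    · obtain ⟨-, -, -, -, Bp, h1, h2, h3, h4, h5, h6⟩ :=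
        H.cont_full hCF h.1 h.2.1 h.2.2 (fun l hl hlm => c2 l (by omega) hlm)
      exact ⟨Bp, fun _ _ _ => ⟨h1, h2, h3, h4, h5, h6⟩⟩
    · exact ⟨0, fun h1 h2 h3 => absurd ⟨h1, h2, h3⟩ h⟩
  choose Rp hRp using hcf
  have hpieces := pieces (𝓔 := 𝓔) T' m bw C SW (m + 1) Rp g
    (fun n h2 hn h hh => (H.slot_pt h2 hn hh).2)
    (fun n h2 hn => by
      rcases Nat.lt_or_ge n m with h | h
      · exact (hBall n h2 h).idsNodup
      · have : n = m := le_antisymm hn h
        subst this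
        rw [eidsm]; exact List.nodup_nil)
    (fun n h2 hn => by
      have := c2 n h2 hn
      unfold EdgeSys.Tower.SWok at this
      exact this.length_eq.symm)
    c5 (by omega) le_rfl
    (fun n h2 hn j hj => by
      have hnm : n < m := by
        rcases Nat.lt_or_ge n m with h | h
        · exact h
        · have : n = m := by omega
          subst this
          rw [eidsm] at hj
          exact absurd hj List.not_mem_nil
      have h1 := (hRp n j h2 hnm hj).1
      have h2' : (T'.slotsOn m SW n j).filter (fun p => p.2.1 < m + 1) = T'.slotsOn m SW n j := by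
        rw [List.filter_eq_self]
        intro q hq
        have := ((T'.mem_slotsOn).1 hq).2.1
        simpa using Nat.lt_succ_of_le this
      rw [h2']
      have h3 : Multiset.ofList ((T'.slotsOn m SW n j).map (fun p => p.2.2)) =
          Multiset.ofList ((T'.sorted m SW n j).map (fun p => p.2.2)) :=
        Multiset.coe_eq_coe.2 ((T'.sorted_perm m SW n j).map _).symm
      rw [h3]
      exact h1)
    (by
      change (if 2 = m ∨ 2 = m + 1 then [] else T.DV 2) = []
      split_ifs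
      · rfl
      · exact hT.dv2)
    hgA
  rw [Nat.add_sub_cancel, c1, eDV'] at hpieces
  have emarksm : T'.marks m = [] := by
    unfold EdgeSys.Tower.marks
    rw [eDV, eDS]
    rfl
  -- membership in the multiset of the pieces
  set Q1 : Multiset (List (Step X ι)) :=
    ∑ n ∈ Finset.Ico 2 (m + 1), ((T'.ids n : Multiset ℕ).map (Rp n)).sum with hQ1
  set Q2 : Multiset (List (Step X ι)) :=
    ∑ n ∈ Finset.Ico 2 (m + 1), Multiset.ofList ((T'.marks n).map
      (fun p => ([Step.mark p.1 p.2] : List (Step X ι)))) with hQ2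
  have hQ1sum : ∀ n, ((T'.ids n : Multiset ℕ).map (Rp n)).sum = ((T'.ids n).map (Rp n)).sum := by
    intro n
    rw [Multiset.map_coe, Multiset.sum_coe]
  have hlt : ∀ n ∈ Finset.Ico 2 (m + 1), ∀ j ∈ T'.ids n, 2 ≤ n ∧ n < m := by
    intro n hn j hj
    have := Finset.mem_Ico.1 hn
    refine ⟨this.1, ?_⟩
    rcases Nat.lt_or_ge n m with h | h
    · exact h
    · have : n = m := by omega
      subst this
      rw [eidsm] at hj
      exact absurd hj List.not_mem_nil
  have hltm : ∀ n ∈ Finset.Ico 2 (m + 1), ∀ q ∈ T'.marks n, 2 ≤ n ∧ n < m := by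
    intro n hn j hj
    have := Finset.mem_Ico.1 hn
    refine ⟨this.1, ?_⟩
    rcases Nat.lt_or_ge n m with h | h
    · exact h
    · have : n = m := by omega
      subst this
      rw [emarksm] at hj
      exact absurd hj List.not_mem_nil
  have hmemQ1 : ∀ w ∈ Q1, ∃ n j, 2 ≤ n ∧ n < m ∧ j ∈ T'.ids n ∧ w ∈ Rp n j := by
    intro w hw
    obtain ⟨n, hn, hw'⟩ := Multiset.mem_sum.1 hw
    rw [hQ1sum] at hw'
    obtain ⟨j, hj, hwj⟩ := mem_list_msum.1 hw'
    exact ⟨n, j, (hlt n hn j hj).1, (hlt n hn j hj).2, hj, hwj⟩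
  have hQ1mem : ∀ n j w, 2 ≤ n → n < m → j ∈ T'.ids n → w ∈ Rp n j → w ∈ Q1 := by
    intro n j w h2 hn hj hw
    refine Multiset.mem_sum.2 ⟨n, Finset.mem_Ico.2 ⟨h2, by omega⟩, ?_⟩
    rw [hQ1sum]
    exact mem_list_msum.2 ⟨j, hj, hw⟩
  have hmemQ2 : ∀ w ∈ Q2, ∃ n k x, 2 ≤ n ∧ n < m ∧ (k, x) ∈ T'.marks n ∧ w = [Step.mark k x] := by
    intro w hw
    obtain ⟨n, hn, hw'⟩ := Multiset.mem_sum.1 hw
    rw [Multiset.mem_coe] at hw'
    obtain ⟨q, hq, rfl⟩ := List.mem_map.1 hw'
    exact ⟨n, q.1, q.2, (hltm n hn q hq).1, (hltm n hn q hq).2, hq, rfl⟩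
  have hQ2mem : ∀ n k x, 2 ≤ n → n < m → (k, x) ∈ T'.marks n →
      ([Step.mark k x] : List (Step X ι)) ∈ Q2 := by
    intro n k x h2 hn hq
    refine Multiset.mem_sum.2 ⟨n, Finset.mem_Ico.2 ⟨h2, by omega⟩, ?_⟩
    rw [Multiset.mem_coe]
    exact List.mem_map.2 ⟨(k, x), hq, rfl⟩
  have hPt : Asm (EdgeSys.und C0 + Q1 + Q2) {g} := by
    have e : EdgeSys.und C0 + Multiset.ofList (List.map (T'.dcont m bw SW (m + 1)) []) + Q1 + Q2 =
        EdgeSys.und C0 + Q1 + Q2 := by
      simp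
    rw [e] at hpieces
    exact hpieces
  clear hpieces
  -- items
  have htC0 : tit (EdgeSys.und C0) =
      (C0.map (fun w => (items w.2.1 : Multiset (ι ⊕ ℕ)))).sum := by
    unfold tit EdgeSys.und
    rw [Multiset.map_map]
    rfl
  have htQ1 : tit Q1 = ∑ n ∈ Finset.Ico 2 (m + 1), ((T'.ids n).map (fun j => tit (Rp n j))).sum := by
    rw [hQ1, tit_finset_msum]
    refine Finset.sum_congr rfl fun n _ => ?_
    rw [hQ1sum, tit_list_msum]
  have htQ2 : tit Q2 = ∑ n ∈ Finset.Ico 2 (m + 1),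
      Multiset.ofList ((T'.marks n).map (fun p => (Sum.inr p.1 : ι ⊕ ℕ))) := by
    rw [hQ2, tit_finset_msum]
    exact Finset.sum_congr rfl fun n _ => tit_marks _
  have htg : (items g : Multiset (ι ⊕ ℕ)) = tit (EdgeSys.und C0) + tit Q1 + tit Q2 := by
    have := hPt.tit_eq
    rw [tit_singleton, tit_add, tit_add] at this
    exact this.symm
  have hmemg : ∀ x, x ∈ items g ↔ (x ∈ tit (EdgeSys.und C0) ∨ x ∈ tit Q1) ∨ x ∈ tit Q2 := by
    intro x
    rw [← Multiset.mem_coe, htg, Multiset.mem_add, Multiset.mem_add]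
  have hRS : ∀ n j, 2 ≤ n → n < m → j ∈ T'.ids n → (T'.arc n j).E ⊆ T.S (m - 1) := by
    intro n j h2 hn hj i hi
    rw [← eS]
    refine ⟨n, by omega, T'.arc n j, ?_, hi⟩
    exact List.mem_map.2 ⟨j, hj, rfl⟩
  have hmemtQ1 : ∀ x ∈ tit Q1, ∃ i ∈ T.S (m - 1), x = Sum.inl i := by
    intro x hx
    rw [htQ1] at hx
    obtain ⟨n, hn, hx'⟩ := Multiset.mem_sum.1 hx
    obtain ⟨j, hj, hxj⟩ := mem_list_msum.1 hx'
    obtain ⟨h2, hnm⟩ := hlt n hn j hj
    obtain ⟨i, hi, rfl⟩ := (hRp n j h2 hnm hj).2.2.1 x hxj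
    exact ⟨i, hRS n j h2 hnm hj hi, rfl⟩
  have hmemtQ2 : ∀ x ∈ tit Q2, ∃ n k y, 2 ≤ n ∧ n < m ∧ (k, y) ∈ T'.marks n ∧ x = Sum.inr k := by
    intro x hx
    rw [htQ2] at hx
    obtain ⟨n, hn, hx'⟩ := Multiset.mem_sum.1 hx
    rw [Multiset.mem_coe] at hx'
    obtain ⟨q, hq, rfl⟩ := List.mem_map.1 hx'
    exact ⟨n, q.1, q.2, (hltm n hn q hq).1, (hltm n hn q hq).2, hq, rfl⟩
  have hmemC0 : ∀ x ∈ tit (EdgeSys.und C0), ∃ i, x = Sum.inl i ∧ i ∉ T.S (m - 1) := by
    intro x hx
    rw [htC0] at hx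
    exact b8 x hx
  have hnodup : (items g).Nodup := by
    rw [← Multiset.coe_nodup, htg, Multiset.nodup_add, Multiset.nodup_add]
    refine ⟨⟨?_, ?_, ?_⟩, ?_, ?_⟩
    · rw [htC0]; exact b9
    · rw [htQ1]
      refine nodup_finset_msum ?_ ?_
      · intro n hn
        rcases Nat.lt_or_ge n m with h | h
        · have h2 := (Finset.mem_Ico.1 hn).1
          have hB := hBall n h2 h
          refine nodup_list_msum hB.idsNodup (fun j hj => (hRp n j h2 h hj).2.1) ?_
          intro j hj j' hj' hne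
          rw [Multiset.disjoint_left]
          intro x hx hx'
          obtain ⟨i, hi, rfl⟩ := (hRp n j h2 h hj).2.2.1 x hx
          obtain ⟨i', hi', he⟩ := (hRp n j' h2 h hj').2.2.1 _ hx'
          rw [Sum.inl.injEq] at he
          subst he
          exact Set.disjoint_left.1 (hB.disjSame j hj j' hj' hne) hi hi'
        · have : n = m := by
            have := Finset.mem_Ico.1 hn
            omega
          subst this
          rw [eidsm]
          simp
      · have key : ∀ n ∈ Finset.Ico 2 (m + 1), ∀ n' ∈ Finset.Ico 2 (m + 1), n < n' →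
            ∀ x, x ∈ ((T'.ids n).map (fun j => tit (Rp n j))).sum →
              x ∈ ((T'.ids n').map (fun j => tit (Rp n' j))).sum → False := by
          intro n hn n' hn' hlt' x hx hx'
          obtain ⟨j, hj, hxj⟩ := mem_list_msum.1 hx
          obtain ⟨j', hj', hxj'⟩ := mem_list_msum.1 hx'
          obtain ⟨h2, hnm⟩ := hlt n hn j hj
          obtain ⟨h2', hnm'⟩ := hlt n' hn' j' hj'
          obtain ⟨i, hi, rfl⟩ := (hRp n j h2 hnm hj).2.2.1 x hxj
          obtain ⟨i', hi', he⟩ := (hRp n' j' h2' hnm' hj').2.2.1 _ hxj'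
          rw [Sum.inl.injEq] at he
          subst he
          refine Set.disjoint_left.1 ((hBall n' h2' hnm').disjLow j' hj') hi' ?_
          refine ⟨n, by omega, T'.arc n j, ?_, hi⟩
          exact List.mem_map.2 ⟨j, hj, rfl⟩
        intro n hn n' hn' hne
        rw [Multiset.disjoint_left]
        intro x hx hx'
        rcases Nat.lt_or_gt_of_ne hne with h | h
        · exact key n hn n' hn' h x hx hx'
        · exact key n' hn' n hn h x hx' hx
    · rw [Multiset.disjoint_left]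
      intro x hx hx'
      obtain ⟨i, rfl, hi⟩ := hmemC0 x hx
      obtain ⟨i', hi', he⟩ := hmemtQ1 _ hx'
      rw [Sum.inl.injEq] at he
      subst he
      exact hi hi'
    · rw [htQ2]
      refine nodup_finset_msum ?_ ?_
      · intro n hn
        rcases Nat.lt_or_ge n m with h | h
        · have h2 := (Finset.mem_Ico.1 hn).1
          have hB := hBall n h2 h
          rw [Multiset.coe_nodup]
          have e : (T'.marks n).map (fun p => (Sum.inr p.1 : ι ⊕ ℕ)) =
              ((T'.marks n).map Prod.fst).map Sum.inr := by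
            rw [List.map_map]; rfl
          rw [e]
          exact hB.marksNodup.map Sum.inr_injective
        · have : n = m := by
            have := Finset.mem_Ico.1 hn
            omega
          subst this
          rw [emarksm]
          simp
      · have key : ∀ n ∈ Finset.Ico 2 (m + 1), ∀ n' ∈ Finset.Ico 2 (m + 1), n < n' →
            ∀ x, x ∈ Multiset.ofList ((T'.marks n).map (fun p => (Sum.inr p.1 : ι ⊕ ℕ))) →
              x ∈ Multiset.ofList ((T'.marks n').map (fun p => (Sum.inr p.1 : ι ⊕ ℕ))) →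
                False := by
          intro n hn n' hn' hlt' x hx hx'
          rw [Multiset.mem_coe] at hx hx'
          obtain ⟨q, hq, rfl⟩ := List.mem_map.1 hx
          obtain ⟨q', hq', he⟩ := List.mem_map.1 hx'
          rw [Sum.inr.injEq] at he
          obtain ⟨h2', hnm'⟩ := hltm n' hn' q' hq'
          refine (hBall n' h2' hnm').marksLow n hlt' q'.1 (List.mem_map.2 ⟨q', hq', rfl⟩) ?_
          rw [he]
          exact List.mem_map.2 ⟨q, hq, rfl⟩
        intro n hn n' hn' hne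
        rw [Multiset.disjoint_left]
        intro x hx hx'
        rcases Nat.lt_or_gt_of_ne hne with h | h
        · exact key n hn n' hn' h x hx hx'
        · exact key n' hn' n hn h x hx' hx
    · rw [Multiset.disjoint_left]
      intro x hx hx'
      obtain ⟨n, k, y, -, -, -, he⟩ := hmemtQ2 x hx'
      rw [Multiset.mem_add] at hx
      rcases hx with hx | hx
      · obtain ⟨i, h1, -⟩ := hmemC0 x hx
        rw [h1] at he
        exact absurd he (by simp)
      · obtain ⟨i, -, h1⟩ := hmemtQ1 x hx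
        rw [h1] at he
        exact absurd he (by simp)
  refine ⟨g, ⟨T', C0, bw, C, SW, hag, hA', hBO, hBW, c1, c2, c3, c4, c5, hgA⟩, hgW, ?_, hnodup,
    ?_, ?_, ?_, ?_⟩
  · -- good steps
    have := hPt.forall_step (p := fun s => 𝓔.GoodStep η s) (fun s hs => hs.rev) (by
      intro w hw s hs
      rw [Multiset.mem_add, Multiset.mem_add] at hw
      rcases hw with (hw | hw) | hw
      · obtain ⟨w', hw', rfl⟩ := Multiset.mem_map.1 hw
        exact (b5 w' hw').2 s hs
      · obtain ⟨n, j, h2, hn, hj, hwj⟩ := hmemQ1 w hw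
        exact (hRp n j h2 hn hj).2.2.2.2.1 w hwj s hs
      · obtain ⟨n, k, x, h2, hn, hq, rfl⟩ := hmemQ2 w hw
        rw [List.mem_singleton] at hs
        subst hs
        have hB := hBall n h2 hn
        unfold EdgeSys.Tower.marks at hq
        change x ∈ 𝓔.G
        rcases List.mem_append.1 hq with hq | hq
        · obtain ⟨D, hD, hDq⟩ := List.mem_filterMap.1 hq
          obtain ⟨k', hk', he⟩ := Option.map_eq_some_iff.1 hDq
          have h3 := (hB.DVok D hD).1.2.2.2.2.1.1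
          have h4 : D.pt = x := (Prod.ext_iff.1 he).2
          rwa [h4] at h3
        · obtain ⟨D, hD, hDq⟩ := List.mem_filterMap.1 hq
          obtain ⟨k', hk', he⟩ := Option.map_eq_some_iff.1 hDq
          have h3 := (hB.DSok D hD).1.2.2.2.2.1.1
          have h4 : D.1.pt = x := (Prod.ext_iff.1 he).2
          rwa [h4] at h3)
    exact this g (Multiset.mem_singleton_self g)
  · -- edges of F
    intro i hiF hns
    rw [hmemg]
    left
    by_cases hiS : i ∈ T.S (m - 1)
    · right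
      rw [← eS] at hiS
      obtain ⟨n, hn, a, ha, hia⟩ := hiS
      unfold EdgeSys.Tower.arcs at ha
      obtain ⟨j, hj, rfl⟩ := List.mem_map.1 ha
      have h2 : 2 ≤ n := by
        by_contra hcon
        have : n = 0 ∨ n = 1 := by omega
        rcases this with rfl | rfl
        · rw [hids0] at hj; exact absurd hj List.not_mem_nil
        · rw [hids1] at hj; exact absurd hj List.not_mem_nil
      have h3 := (hRp n j h2 (by omega) hj).2.2.2.1 i hia hiF
      rw [htQ1]
      refine Multiset.mem_sum.2 ⟨n, Finset.mem_Ico.2 ⟨h2, by omega⟩, ?_⟩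
      exact mem_list_msum.2 ⟨j, hj, h3⟩
    · left
      rw [htC0]
      exact b10 i hiF hiS hns
  · -- marks of g
    have := hPt.forall_step (p := fun s => ∀ k x, s = Step.mark k x →
        ∃ n, 2 ≤ n ∧ n < m ∧ (k, x) ∈ T.marks n) (fun s hs k x h => hs k x (by
          rw [← Step.rev_rev s, h]; rfl)) (by
      intro w hw s hs k x hsk
      subst hsk
      rw [Multiset.mem_add, Multiset.mem_add] at hw
      have hitem : (Sum.inr k : ι ⊕ ℕ) ∈ items w := by
        unfold items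
        exact List.mem_filterMap.2 ⟨_, hs, rfl⟩
      rcases hw with (hw | hw) | hw
      · have h1 : (Sum.inr k : ι ⊕ ℕ) ∈ tit (EdgeSys.und C0) := mem_tit.2 ⟨w, hw, hitem⟩
        obtain ⟨i, h2, -⟩ := hmemC0 _ h1
        exact absurd h2 (by simp)
      · have h1 : (Sum.inr k : ι ⊕ ℕ) ∈ tit Q1 := mem_tit.2 ⟨w, hw, hitem⟩
        obtain ⟨i, -, h2⟩ := hmemtQ1 _ h1
        exact absurd h2 (by simp)
      · obtain ⟨n, k', x', h2, hn, hq, rfl⟩ := hmemQ2 w hw
        rw [List.mem_singleton] at hs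
        injection hs with h3 h4
        subst h3 h4
        rw [hag.marks hn] at hq
        exact ⟨n, h2, hn, hq⟩)
    intro k x hkx
    exact this g (Multiset.mem_singleton_self g) _ hkx k x rfl
  · intro n h2 hn k x hq
    rw [← hag.marks hn] at hq
    exact mark_of_asm hPt (Multiset.mem_add.2 (Or.inr (hQ2mem n k x h2 hn hq)))
  · -- density
    intro x hx
    have harc : ∀ l j t, 2 ≤ l → l < m → j ∈ T.ids l → dist x ((T.arc l j).f t) ≤ η →
        ∃ y ∈ 𝓔.supW g, dist x y ≤ 2 * η := by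
      intro l j t h2 hl hj hd
      have hj' : j ∈ T'.ids l := by rw [hag.ids hl]; exact hj
      obtain ⟨w, hw, y, hy, hdy⟩ := (hRp l j h2 hl hj').2.2.2.2.2 t
      rw [hag.arc l hl] at hdy
      refine ⟨y, supW_of_asm hPt (Multiset.mem_add.2 (Or.inl (Multiset.mem_add.2
        (Or.inr (hQ1mem l j w h2 hl hj' hw))))) hy, ?_⟩
      have := dist_triangle x ((T.arc l j).f t) y
      linarith
    rcases b13 x hx with ⟨w, hw, y, hy, hd⟩ | ⟨y, hy, hd⟩ | ⟨v, hv, hd⟩
    · left
      have hne := (b5 w hw).1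
      have hok := (b4 w hw).1
      have hyw : y ∈ 𝓔.supW w.2.1 := by
        rcases hy with hy | hy
        · exact hy
        · rcases hy with hy | hy
          · rw [hy]; exact EdgeSys.IsW.start_mem hne hok
          · rw [hy]; exact EdgeSys.IsW.end_mem hne hok
      refine ⟨y, supW_of_asm hPt (Multiset.mem_add.2 (Or.inl (Multiset.mem_add.2
        (Or.inl (Multiset.mem_map.2 ⟨w, hw, rfl⟩))))) hyw, by linarith⟩
    · left
      obtain ⟨l, j, t, h2, hl, hj, he⟩ := host T hT.ids0 hT.ids1 hy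
      refine harc l j t h2 (by omega) hj ?_
      rw [he]; exact hd
    · by_cases hvp : v = p
      · right
        rw [← hvp]
        linarith
      · left
        obtain ⟨l, j, t, h2, hl, hj, he⟩ := vertex_on_arc hT hv hvp
        refine harc l j t h2 (by omega) hj ?_
        rw [he]; exact hd

end Pool.Agent.EU.H97
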